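import Pool.Agent.H9.K2.Stmts
import Pool.Agent.H34.KA.TYA
import Pool.Agent.H44.KA.GRO

/-!
# The class `(a, R)`: restriction to an event
-/

set_option autoImplicit false

namespace Pool.KA

open Finset Real
open Pool.Agent.H49.Ent Pool.Agent.H32.Dense Pool.STK

namespace AP5

variable {m J : ℕ}

lemma Tm_mono {F : Fam m J} {e e' : ℝ} (h : F.Tm e) (he : e ≤ e') : F.Tm e' := by
  unfold Fam.Tm at h ⊢
  linarith

/-- The trivial bound of the functional. -/
lemma Ga_le (hG : GROStmt) (m : ℕ) : ∃ C : ℝ, 0 ≤ C ∧ ∀ (J : ℕ) (F : Fam m J) (a : ℝ), 1 ≤ a →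
    F.Ga a ≤ m * Real.log 2 * J + C := by
  obtain ⟨C, hC, h⟩ := hG m
  refine ⟨C, hC, fun J F a ha => ?_⟩
  have h1 := (h J F).2.2 J
  have h2 : F.V J = CH F.p (F.D J) F.Z - CH F.p (F.X J) F.W -
    m * (((J : ℝ) - J) * Real.log 2) := rfl
  have h3 : 0 ≤ CH F.p (F.X J) F.W := CH_nonneg F.isLaw.nonneg _ _
  have h4 : 1 * CH F.p (F.X J) F.W ≤ a * CH F.p (F.X J) F.W :=
    mul_le_mul_of_nonneg_right ha h3
  unfold Fam.Ga
  have h5 : (m : ℝ) * (((J : ℝ) - J) * Real.log 2) = 0 := by ring
  have h6 : (m : ℝ) * ((J : ℝ) * Real.log 2) = m * Real.log 2 * J := by ring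
  linarith

open Classical in
lemma law_prop_sum (F : Fam m J) (A : F.Ω → Prop) : law F.p A True + law F.p A False = 1 := by
  have h := tya_law_sum F.p A
  rw [F.isLaw.sum_one, Fintype.univ_Prop, Finset.sum_pair (by simp)] at h
  exact h

open Classical in
/-- The functional is affine in the law, up to `log 2`. -/
lemma Ga_affine (F : Fam m J) (A : F.Ω → Prop) (a : ℝ) (ha : 0 ≤ a) :
    F.Ga a ≤ law F.p A True * (CH (cond F.p A True) (F.D J) F.Z -
        a * CH (cond F.p A True) (F.X J) F.W) +
      law F.p A False * (CH (cond F.p A False) (F.D J) F.Z -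
        a * CH (cond F.p A False) (F.X J) F.W) + Real.log 2 := by
  have hp := F.isLaw.nonneg
  have h1 := tya_CH_sum hp (F.D J) F.Z A
  have h2 := tya_CH_sum hp (F.X J) F.W A
  rw [Fintype.univ_Prop, Finset.sum_pair (by simp)] at h1 h2
  have h3 := (tya_CH_le F.isLaw (F.D J) F.Z A).2
  have h4 := (tya_CH_le F.isLaw (F.X J) F.W A).1
  rw [Fintype.card_prop] at h3
  have h5 := mul_le_mul_of_nonneg_left h4 ha
  rw [h1] at h3
  rw [h2] at h5
  unfold Fam.Ga
  push_cast at h3
  linarith

end AP5

open AP5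

open Classical in
theorem ap5_thm : AP5Stmt := by
  intro m a R ha hR hUB π₀ hπ η hη θ hθ
  obtain ⟨C, hC, hG⟩ := Ga_le gro_thm m
  have hl2 : 0 < Real.log 2 := Real.log_pos (by norm_num)
  have hL : 0 ≤ (m : ℝ) * Real.log 2 := by positivity
  obtain ⟨c, hcd⟩ : ∃ c, c = π₀ * η / 4 := ⟨_, rfl⟩
  have hc : 0 < c := by rw [hcd]; positivity
  obtain ⟨ε₁, hε⟩ : ∃ ε₁, ε₁ = c / (m * Real.log 2 + 1) := ⟨_, rfl⟩
  have hε0 : 0 < ε₁ := by rw [hε]; positivity
  have hεL : ε₁ * (m * Real.log 2) ≤ c := by
    rw [hε, div_mul_eq_mul_div, div_le_iff₀ (by positivity)]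
    nlinarith
  obtain ⟨θ', hθ', J', hJ'⟩ := hUB c hc
  obtain ⟨J₁, hJ₁⟩ := exists_nat_ge (Real.log 2 / (π₀ * θ / 2) + Real.log 2 / (ε₁ * θ' / 2) +
    (Real.log 2 + C) / c)
  refine ⟨c, hc, min (π₀ * θ / 2) (ε₁ * θ' / 2), lt_min (by positivity) (by positivity),
    max J' J₁, fun J hJ F hF A hA => ?_⟩
  have hJJ : (J₁ : ℝ) ≤ J := by exact_mod_cast (le_max_right _ _).trans hJ
  have t1 : 0 ≤ Real.log 2 / (π₀ * θ / 2) := by positivity
  have t2 : 0 ≤ Real.log 2 / (ε₁ * θ' / 2) := by positivity
  have t3 : 0 ≤ (Real.log 2 + C) / c := by positivity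
  have k1 : Real.log 2 ≤ π₀ * θ / 2 * J := by
    rw [← div_le_iff₀' (by positivity)]; linarith
  have k2 : Real.log 2 ≤ ε₁ * θ' / 2 * J := by
    rw [← div_le_iff₀' (by positivity)]; linarith
  have k3 : Real.log 2 + C ≤ c * J := by
    rw [← div_le_iff₀' (by positivity)]; linarith
  obtain ⟨hTm, hGa⟩ := hF
  have hJ0 : (0 : ℝ) ≤ J := Nat.cast_nonneg J
  obtain ⟨hlaw, htya⟩ := tya_thm m J F Prop A _ hTm
  have hTime := (htya hlaw).2
  rw [Fintype.card_prop] at hTime
  push_cast at hTime
  have hP : 0 < law F.p A True := hπ.trans_le hA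
  have hsum := law_prop_sum F A
  have hQ0 : 0 ≤ law F.p A False := law_nonneg F.isLaw.nonneg A False
  have haff := Ga_affine F A a (by linarith)
  have eT : (F.res A True (hlaw True hP)).Ga a = CH (cond F.p A True) (F.D J) F.Z -
    a * CH (cond F.p A True) (F.X J) F.W := rfl
  refine ⟨hlaw True hP, Tm_mono (hTime True hP) ?_, ?_⟩
  · rw [div_le_iff₀ hP]
    have h1 : min (π₀ * θ / 2) (ε₁ * θ' / 2) * J ≤ π₀ * θ / 2 * J :=
      mul_le_mul_of_nonneg_right (min_le_left _ _) hJ0
    have h2 : π₀ * (θ * J) ≤ law F.p A True * (θ * J) :=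
      mul_le_mul_of_nonneg_right hA (by positivity)
    linarith
  · have key : law F.p A False * (CH (cond F.p A False) (F.D J) F.Z -
        a * CH (cond F.p A False) (F.X J) F.W) ≤ law F.p A False * R * J + c * J + C := by
      rcases hQ0.eq_or_lt with h0 | h0
      · rw [← h0]
        have : 0 ≤ c * J := by positivity
        linarith
      · have eF : (F.res A False (hlaw False h0)).Ga a = CH (cond F.p A False) (F.D J) F.Z -
          a * CH (cond F.p A False) (F.X J) F.W := rfl
        rw [← eF]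
        rcases le_or_gt ε₁ (law F.p A False) with h1 | h1
        · have h2 : (F.res A False (hlaw False h0)).Tm (θ' * J) := by
            refine Tm_mono (hTime False h0) ?_
            rw [div_le_iff₀ h0]
            have h3 : min (π₀ * θ / 2) (ε₁ * θ' / 2) * J ≤ ε₁ * θ' / 2 * J :=
              mul_le_mul_of_nonneg_right (min_le_right _ _) hJ0
            have h4 : ε₁ * (θ' * J) ≤ law F.p A False * (θ' * J) :=
              mul_le_mul_of_nonneg_right h1 (by positivity)
            linarith
          have h3 := hJ' J ((le_max_left _ _).trans hJ) _ h2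
          have h4 := mul_le_mul_of_nonneg_left h3 h0.le
          have h5 : law F.p A False * (c * J) ≤ 1 * (c * J) :=
            mul_le_mul_of_nonneg_right (by linarith) (by positivity)
          linarith
        · have h2 := hG J (F.res A False (hlaw False h0)) a ha
          have h3 := mul_le_mul_of_nonneg_left h2 h0.le
          have h4 : law F.p A False * (m * Real.log 2 * J) ≤ ε₁ * (m * Real.log 2 * J) :=
            mul_le_mul_of_nonneg_right h1.le (by positivity)
          have h5 : ε₁ * (m * Real.log 2) * J ≤ c * J := mul_le_mul_of_nonneg_right hεL hJ0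
          have h6 : law F.p A False * C ≤ 1 * C :=
            mul_le_mul_of_nonneg_right (by linarith) hC
          have h7 : 0 ≤ law F.p A False * R * J := by positivity
          linarith
    have h8 : law F.p A True * ((R - η) * J) ≤ law F.p A True *
        (F.res A True (hlaw True hP)).Ga a := by
      rw [eT]
      have h9 : π₀ * (η * J) ≤ law F.p A True * (η * J) :=
        mul_le_mul_of_nonneg_right hA (by positivity)
      have h10 : law F.p A True = 1 - law F.p A False := by linarith
      have h11 : law F.p A True * R * J = R * J - law F.p A False * R * J := by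
        rw [h10]; ring
      have h12 : c * J = π₀ * (η * J) / 4 := by rw [hcd]; ring
      linarith
    exact le_of_mul_le_mul_left h8 hP

end Pool.KA
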