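import Pool.Agent.H9.K2.Stmts2
import Pool.Agent.H97.KAL.CDF

/-!
# Existence of regular types
-/

set_option autoImplicit false

namespace Pool.KA

open Finset Real
open Pool.Agent.H49.Ent Pool.Agent.H32.Dense Pool.STK

namespace RTY

variable {Ω S κ : Type} [Fintype Ω]

/-- If the information of `f` is almost constant on a class which is not too small, then `f` is
regular there. -/
lemma core {p : Ω → ℝ} (hp : IsLaw p) (f : Ω → S) (A : Ω → κ) {k : κ} {h e : ℝ} (he : 0 ≤ e)
    (hA : Real.exp (-e) ≤ law p A k)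
    (hb : ∀ ω, 0 < p ω → A ω = k → h ≤ -Real.log (law p f (f ω)) ∧
      -Real.log (law p f (f ω)) ≤ h + e) : Rg (cond p A k) f h e := by
  classical
  have hpos : 0 < law p A k := (Real.exp_pos _).trans_le hA
  refine ⟨?_, fun s => ?_⟩
  · set F := (univ.filter (fun ω => cond p A k ω ≠ 0)).image f with hF
    have h1 : ∀ s ∈ F, Real.exp (-(h + e)) ≤ law p f s := by
      intro s hs
      obtain ⟨ω, hω, rfl⟩ := Finset.mem_image.1 hs
      have h2 : 0 < cond p A k ω :=
        (cond_nonneg hp.nonneg A k ω).lt_of_ne (Ne.symm (Finset.mem_filter.1 hω).2)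
      obtain ⟨h3, h4⟩ := (cond_pos_iff hp.nonneg A k ω).1 h2
      have h5 := (hb ω h3 h4).2
      rw [← Real.le_log_iff_exp_le (law_pos hp.nonneg f h3)]
      linarith
    have h2 : ∑ _s ∈ F, Real.exp (-(h + e)) ≤ ∑ s ∈ F, law p f s := Finset.sum_le_sum h1
    have h3 : ∑ s ∈ F, law p f s ≤ 1 := by
      rw [← hp.sum_one, ← sum_law p f]
      refine Finset.sum_le_sum_of_subset_of_nonneg ?_ fun s _ _ => law_nonneg hp.nonneg f s
      exact Finset.image_subset_image (Finset.filter_subset _ _)
    rw [Finset.sum_const, nsmul_eq_mul] at h2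
    have h4 : (F.card : ℝ) * Real.exp (-(h + e)) ≤ 1 := h2.trans h3
    have h5 : (F.card : ℝ) ≤ Real.exp (h + e) := by
      calc (F.card : ℝ) = F.card * Real.exp (-(h + e)) * Real.exp (h + e) := by
            rw [mul_assoc, ← Real.exp_add]; simp
        _ ≤ 1 * Real.exp (h + e) := mul_le_mul_of_nonneg_right h4 (Real.exp_pos _).le
        _ = Real.exp (h + e) := one_mul _
    rw [hF] at h5
    convert h5
  · by_cases hs : ∃ ω, 0 < p ω ∧ A ω = k ∧ f ω = s
    · obtain ⟨ω, hω, hωk, rfl⟩ := hs
      rw [law_cond, div_le_iff₀ hpos]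
      have h1 : law p (fun ω => (f ω, A ω)) (f ω, k) ≤ law p f (f ω) := by
        unfold law
        refine Finset.sum_le_sum fun v _ => ?_
        by_cases h2 : (f v, A v) = (f ω, k)
        · rw [if_pos h2, if_pos (Prod.mk.inj h2).1]
        · rw [if_neg h2]
          split_ifs
          · exact hp.nonneg v
          · exact le_rfl
      have h2 := (hb ω hω hωk).1
      have h3 : law p f (f ω) ≤ Real.exp (-h) := by
        rw [← Real.log_le_iff_le_exp (law_pos hp.nonneg f hω)]
        linarith
      have h4 : Real.exp (-h) = Real.exp (-(h - e)) * Real.exp (-e) := by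
        rw [← Real.exp_add]; congr 1; ring
      rw [h4] at h3
      exact (h1.trans h3).trans (mul_le_mul_of_nonneg_left hA (Real.exp_pos _).le)
    · have h1 : law (cond p A k) f s = 0 := by
        unfold law
        refine Finset.sum_eq_zero fun ω _ => ?_
        split_ifs with h
        · by_contra h2
          have h3 : 0 < cond p A k ω :=
            (cond_nonneg hp.nonneg A k ω).lt_of_ne (Ne.symm h2)
          rw [cond_pos_iff hp.nonneg] at h3
          exact hs ⟨ω, h3.1, h3.2, h⟩
        · rfl
      rw [h1]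
      exact (Real.exp_pos _).le

lemma Rg_mono {p : Ω → ℝ} {f : Ω → S} {h e e' : ℝ} (hf : Rg p f h e) (he : e ≤ e') :
    Rg p f h e' :=
  ⟨hf.1.trans (Real.exp_le_exp.2 (by linarith)),
    fun s => (hf.2 s).trans (Real.exp_le_exp.2 (by linarith))⟩

/-- The probability that the information is large. -/
lemma large {p : Ω → ℝ} (hp : IsLaw p) (f : Ω → S) {x : ℝ} :
    Pool.KAF.Pr p {ω | x < -Real.log (law p f (f ω))} * x ≤ H p f := by
  have h1 := Pool.KAL.CDF.markov hp.nonneg (fun ω => -Real.log (law p f (f ω))) (fun ω hω => by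
    have h2 := law_pos hp.nonneg f hω
    have h3 : law p f (f ω) ≤ 1 := hp.sum_one ▸ law_le_total hp.nonneg f (f ω)
    exact neg_nonneg.2 (Real.log_nonpos h2.le h3)) x
  refine h1.trans (le_of_eq ?_)
  unfold Ex H
  rw [← Finset.sum_neg_distrib]
  exact Finset.sum_congr rfl fun ω _ => by ring

end RTY

open RTY

theorem rty_thm : RTYStmt := by
  classical
  intro N B e ζ hB he hζ
  obtain ⟨K, hK⟩ := exists_nat_ge (B * N / (ζ * e))
  refine ⟨Fintype.card (Option (Fin N → Fin (K + 1))), ?_⟩
  intro J hJ Ω S _ p hp f hf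
  have hJr : (1 : ℝ) ≤ J := by exact_mod_cast hJ
  have hJ0 : (0 : ℝ) < J := by linarith
  obtain ⟨E, hE⟩ : ∃ E, E = e * J := ⟨_, rfl⟩
  have hE0 : 0 < E := by rw [hE]; positivity
  obtain ⟨L, hL⟩ : ∃ L, L = B * N / ζ * J := ⟨_, rfl⟩
  have hLK : L / E ≤ K := by
    refine le_trans (le_of_eq ?_) hK
    rw [hL, hE]
    field_simp
  let ι : Ω → Fin N → ℝ := fun ω i => -Real.log (law p (f i) (f i ω))
  let ty : Ω → Fin N → Fin (K + 1) := fun ω i => ⟨min ⌊ι ω i / E⌋₊ K, by omega⟩
  let A₀ : Ω → Option (Fin N → Fin (K + 1)) := fun ω =>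
    if ∃ i, L < ι ω i then none else some (ty ω)
  let eqv := Fintype.equivFin (Option (Fin N → Fin (K + 1)))
  refine ⟨fun ω => eqv (A₀ ω), eqv none, ?_, ?_⟩
  · -- the exceptional class
    have h1 : law p (fun ω => eqv (A₀ ω)) (eqv none) ≤
        ∑ i : Fin N, Pool.KAF.Pr p {ω | L < ι ω i} := by
      have h2 : law p (fun ω => eqv (A₀ ω)) (eqv none) =
          ∑ ω, if ∃ i, L < ι ω i then p ω else 0 := by
        unfold law
        refine Finset.sum_congr rfl fun ω _ => ?_
        by_cases h : ∃ i, L < ι ω i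
        · have h3 : A₀ ω = none := if_pos h
          simp only [h3, if_true, if_pos h]
        · have h3 : A₀ ω = some (ty ω) := if_neg h
          rw [if_neg h, if_neg]
          intro h4
          have h5 := eqv.injective h4
          rw [h3] at h5
          exact Option.some_ne_none _ h5
      rw [h2]
      have h3 : ∀ i : Fin N, Pool.KAF.Pr p {ω | L < ι ω i} =
          ∑ ω, if L < ι ω i then p ω else 0 := fun i => by
        rw [Pool.KAL.CDF.Pr_eq]
        rfl
      simp_rw [h3]
      rw [Finset.sum_comm]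
      refine Finset.sum_le_sum fun ω _ => ?_
      have h4 : ∀ i ∈ (univ : Finset (Fin N)), 0 ≤ if L < ι ω i then p ω else 0 := fun i _ => by
        split_ifs
        · exact hp.nonneg ω
        · exact le_rfl
      by_cases h : ∃ i, L < ι ω i
      · rw [if_pos h]
        obtain ⟨i, hi⟩ := h
        have h5 := Finset.single_le_sum h4 (Finset.mem_univ i)
        rw [if_pos hi] at h5
        exact h5
      · rw [if_neg h]
        exact Finset.sum_nonneg h4
    refine h1.trans ?_
    rcases Nat.eq_zero_or_pos N with hN | hN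
    · subst hN
      simp [hζ.le]
    · have hNr : (0 : ℝ) < N := by exact_mod_cast hN
      have h2 : ∀ i : Fin N, Pool.KAF.Pr p {ω | L < ι ω i} ≤ ζ / N := by
        intro i
        have h3 := large hp (f i) (x := L)
        have h4 := h3.trans (hf i)
        have hL0 : 0 < L := by rw [hL]; positivity
        rw [le_div_iff₀ hNr]
        have h5 : B * J = ζ / N * L := by
          rw [hL]; field_simp
        rw [h5] at h4
        have h6 := le_of_mul_le_mul_right h4 hL0
        rwa [le_div_iff₀ hNr] at h6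
      calc ∑ i : Fin N, Pool.KAF.Pr p {ω | L < ι ω i} ≤ ∑ _i : Fin N, ζ / N :=
            Finset.sum_le_sum fun i _ => h2 i
        _ = ζ := by
            rw [Finset.sum_const, Finset.card_univ, Fintype.card_fin, nsmul_eq_mul]
            field_simp
  · intro k hk hlaw i
    obtain ⟨o, rfl⟩ := eqv.surjective k
    have ho : o ≠ none := fun h => hk (by rw [h])
    obtain ⟨v, rfl⟩ := Option.ne_none_iff_exists'.1 ho
    refine ⟨(v i : ℕ) * E, Rg_mono (core hp (f i) _ hE0.le ?_ ?_) (e := E) ?_⟩
    · rw [hE]; exact hlaw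
    · intro ω hω hA
      have h1 := eqv.injective hA
      have h2 : ¬ ∃ i, L < ι ω i := by
        intro h
        have h3 : A₀ ω = none := if_pos h
        rw [h3] at h1
        exact Option.some_ne_none _ h1.symm
      have h3 : A₀ ω = some (ty ω) := if_neg h2
      rw [h3] at h1
      have h4 : ty ω = v := Option.some.inj h1
      have h5 : ι ω i ≤ L := by
        by_contra hc
        exact h2 ⟨i, not_le.1 hc⟩
      have h6 : (v i : ℕ) = min ⌊ι ω i / E⌋₊ K := by rw [← h4]
      have h7 : 0 ≤ ι ω i := by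
        have h8 := law_pos hp.nonneg (f i) hω
        have h9 : law p (f i) (f i ω) ≤ 1 := hp.sum_one ▸ law_le_total hp.nonneg (f i) (f i ω)
        exact neg_nonneg.2 (Real.log_nonpos h8.le h9)
      have h8 : 0 ≤ ι ω i / E := div_nonneg h7 hE0.le
      have h9 : ⌊ι ω i / E⌋₊ ≤ K := by
        have h10 : ι ω i / E ≤ K := (div_le_div_of_nonneg_right h5 hE0.le).trans hLK
        have h11 : (⌊ι ω i / E⌋₊ : ℝ) ≤ K := (Nat.floor_le h8).trans h10
        exact_mod_cast h11
      rw [min_eq_left h9] at h6
      rw [h6]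
      have h10 := Nat.floor_le h8
      have h11 := Nat.lt_floor_add_one (ι ω i / E)
      rw [le_div_iff₀ hE0] at h10
      rw [div_lt_iff₀ hE0] at h11
      refine ⟨h10, ?_⟩
      have h12 : ι ω i ≤ (⌊ι ω i / E⌋₊ : ℝ) * E + E := by linarith
      exact h12
    · rw [hE]
      nlinarith

end Pool.KA
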