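import Pool.Agent.H97.K2.WDC

/-!
# Two sided ledger along the paths

`X k` is the normal position to `k` rows and `W k` the tangential position to the row which belongs
to the row `k` of the normal position (a function of the label `Q`). A row `P` is certified at the
place `ω` if, for some length `l`, the block of the last `l` rows has conditional probability at
most `exp (-b l)` given a label which is finer than `(Q, X (P + 1 - l), W (P + 1))`. The certificate
can depend on the place in any way. Then almost all rows of the normal position contribute `b` to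
the entropy, on top of the conditional entropies of the rows of the tangential position in the
order of the path.
-/

set_option autoImplicit false

namespace Pool.KX

open Finset Real
open Pool.Agent.H49.Ent Pool.Agent.H32.Dense Pool.STK Pool.KAF Pool.KAL

/-- PTI. Two sided ledger. `LL` is the set of the kinds of certificates, `len l` the length of the
kind `l`, `c P ω` the kind which is used by the place `ω` at the row `P`. -/
def PTIStmt : Prop :=
  ∀ (Ω κ ι : Type) (α β : ℕ → Type) (γ : ι → ℕ → Type) [Fintype Ω] (p : Ω → ℝ) (Q : Ω → κ)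
    (X : ∀ k, Ω → α k) (W : ∀ k, Ω → β k) (n : ℕ) (LL : Finset ι) (len : ι → ℕ)
    (G : ℕ → Set Ω) (c : ℕ → Ω → ι) (B : ∀ l P, Ω → γ l P) (b ε : ℝ),
    IsLaw p → 0 ≤ ε → 2 * ε ≤ b →
    (∀ k, Det p (fun ω => (Q ω, X (k + 1) ω)) (X k)) →
    (∀ k, Det p (fun ω => (Q ω, W (k + 1) ω)) (W k)) →
    (∀ P < n, ∀ l ∈ LL, len l ≤ P + 1 →
      Det p (B l P) (fun ω => (Q ω, X (P + 1 - len l) ω, W (P + 1) ω))) →
    (∀ P < n, ∀ ω ∈ G P, 0 < p ω → c P ω ∈ LL ∧ 1 ≤ len (c P ω) ∧ len (c P ω) ≤ P + 1 ∧
      law (Pool.Agent.H49.Ent.cond p (B (c P ω) P) (B (c P ω) P ω)) (X (P + 1)) (X (P + 1) ω) ≤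
        Real.exp (-(b * len (c P ω)))) →
    (b - 2 * ε) * (n - ∑ P ∈ range n, Pr p (G P)ᶜ -
        2 * n * ∑ l ∈ LL, Real.exp (-(ε * len l))) +
      ∑ k ∈ range n, CH p (W (k + 1)) (fun ω => (Q ω, X k ω, W k ω)) ≤
      CH p (fun ω => (X n ω, W n ω)) (fun ω => (Q ω, X 0 ω, W 0 ω))

namespace PTI

/-- A likelihood ratio has mean at most one. -/
lemma lr_step {Ω σ α α' σ' : Type} [Fintype Ω] {p : Ω → ℝ} (hp : ∀ ω, 0 ≤ p ω) {S : Ω → σ}
    {a : Ω → α} {a' : Ω → α'} {s' : Ω → σ'} (h1 : Det p S a)
    (h4 : Det p (fun ω => (a' ω, S ω)) s') (h5 : Det p a' a)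
    {f : Ω → ℝ} (hf : ∀ ω, 0 ≤ f ω)
    (hfS : ∀ ω ω', 0 < p ω → 0 < p ω' → S ω = S ω' → f ω = f ω') :
    Ex p (fun ω => f ω * (law p S (S ω) * law p a' (a' ω) /
      (law p s' (s' ω) * law p a (a ω)))) ≤ Ex p f := by
  classical
  have e1 : (fun ω => f ω * (law p S (S ω) * law p a' (a' ω) /
      (law p s' (s' ω) * law p a (a ω)))) = fun ω =>
      (f ω * (law p S (S ω) / law p a (a ω))) * (law p a' (a' ω) / law p s' (s' ω)) := by
    funext ω
    rw [mul_assoc, div_mul_div_comm, mul_comm (law p s' (s' ω))]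
  rw [e1, WDC.tower' hp S (fun ω => f ω * (law p S (S ω) / law p a (a ω)))
    (fun ω => law p a' (a' ω) / law p s' (s' ω)) (fun ω ω' b b' h => by
      rw [hfS ω ω' b b' h, h, h1 ω ω' b b' h])]
  refine Ex_mono hp fun ω hω => ?_
  have hS := law_pos hp S hω
  have ha := law_pos hp a hω
  -- the conditional mean
  have key : ∑ v, (if S v = S ω then p v else 0) * (law p a' (a' v) / law p s' (s' v)) ≤
      law p a (a ω) := by
    have c1 : ∀ v, (if S v = S ω then p v else 0) * (law p a' (a' v) / law p s' (s' v)) =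
        ∑ u, p u * (if S v = S ω ∧ a' u = a' v then p v / law p s' (s' v) else 0) := by
      intro v
      by_cases hv : S v = S ω
      · rw [if_pos hv]
        have c2 : law p a' (a' v) = ∑ u, if a' u = a' v then p u else 0 := rfl
        rw [c2, Finset.sum_div, Finset.mul_sum]
        refine Finset.sum_congr rfl fun u _ => ?_
        by_cases hu : a' u = a' v
        · rw [if_pos hu, if_pos ⟨hv, hu⟩]
          ring
        · rw [if_neg hu, if_neg (fun h => hu h.2)]
          simp
      · rw [if_neg hv, zero_mul]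
        symm
        refine Finset.sum_eq_zero fun u _ => ?_
        rw [if_neg (fun h => hv h.1), mul_zero]
    simp_rw [c1]
    rw [Finset.sum_comm]
    have c3 : law p a (a ω) = ∑ u, p u * (if a u = a ω then 1 else 0) := by
      unfold law
      refine Finset.sum_congr rfl fun u _ => ?_
      rw [mul_ite, mul_one, mul_zero]
    rw [c3]
    refine Finset.sum_le_sum fun u _ => ?_
    rw [← Finset.mul_sum]
    rcases (hp u).eq_or_lt with h0 | h0
    · rw [← h0]
      simp
    refine mul_le_mul_of_nonneg_left ?_ h0.le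
    by_cases hex : ∃ v, 0 < p v ∧ S v = S ω ∧ a' u = a' v
    · obtain ⟨v0, hv0, hv1, hv2⟩ := hex
      have d1 : a u = a ω := (h5 u v0 h0 hv0 hv2).trans (h1 v0 ω hv0 hω hv1)
      rw [if_pos d1]
      have hl := law_pos hp s' hv0
      have d2 : ∑ v, (if S v = S ω ∧ a' u = a' v then p v / law p s' (s' v) else 0) ≤
          ∑ v, (if s' v = s' v0 then p v / law p s' (s' v0) else 0) := by
        refine Finset.sum_le_sum fun v _ => ?_
        rcases (hp v).eq_or_lt with h2 | h2
        · rw [← h2]
          simp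
        by_cases hv : S v = S ω ∧ a' u = a' v
        · have d3 : s' v = s' v0 := h4 v v0 h2 hv0 (by
            simp only [Prod.mk.injEq]
            exact ⟨hv.2.symm.trans hv2, hv.1.trans hv1.symm⟩)
          rw [if_pos hv, if_pos d3, d3]
        · rw [if_neg hv]
          split_ifs
          · positivity
          · exact le_rfl
      refine d2.trans (le_of_eq ?_)
      have d4 : ∀ v, (if s' v = s' v0 then p v / law p s' (s' v0) else 0) =
          (if s' v = s' v0 then p v else 0) / law p s' (s' v0) := by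
        intro v
        split_ifs <;> simp
      simp_rw [d4]
      rw [← Finset.sum_div]
      exact div_self hl.ne'
    · push Not at hex
      have d1 : ∑ v, (if S v = S ω ∧ a' u = a' v then p v / law p s' (s' v) else 0) = 0 := by
        refine Finset.sum_eq_zero fun v _ => ?_
        rcases (hp v).eq_or_lt with h2 | h2
        · rw [← h2]
          simp
        · rw [if_neg (fun h => hex v h2 h.1 h.2)]
      rw [d1]
      split_ifs <;> norm_num
  have e2 : Ex (Pool.Agent.H49.Ent.cond p S (S ω)) (fun ω => law p a' (a' ω) / law p s' (s' ω)) =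
      (∑ v, (if S v = S ω then p v else 0) * (law p a' (a' v) / law p s' (s' v))) /
        law p S (S ω) := by
    unfold Ex Pool.Agent.H49.Ent.cond
    rw [Finset.sum_div]
    refine Finset.sum_congr rfl fun v _ => ?_
    by_cases hv : S v = S ω
    · rw [if_pos hv, if_pos hv]
      ring
    · rw [if_neg hv, if_neg hv]
      simp
  rw [e2]
  have e3 : f ω * (law p S (S ω) / law p a (a ω)) *
      ((∑ v, (if S v = S ω then p v else 0) * (law p a' (a' v) / law p s' (s' v))) /
        law p S (S ω)) = f ω * ((∑ v, (if S v = S ω then p v else 0) *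
        (law p a' (a' v) / law p s' (s' v))) / law p a (a ω)) := by
    field_simp
  rw [e3]
  have e4 := (div_le_one ha).2 key
  calc f ω * ((∑ v, (if S v = S ω then p v else 0) *
        (law p a' (a' v) / law p s' (s' v))) / law p a (a ω)) ≤ f ω * 1 :=
        mul_le_mul_of_nonneg_left e4 (hf ω)
    _ = f ω := mul_one _

open Classical in
/-- Tiling of one path from the right. -/
lemma tiling (J c : ℕ → ℝ) (b : ℝ) (hb : 0 ≤ b) (bad : ℕ → Prop) (n : ℕ)
    (h1 : ∀ P < n, J P + c P ≤ J (P + 1))
    (h2 : ∀ P < n, ¬ bad P → ∃ l, 1 ≤ l ∧ l ≤ P + 1 ∧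
      J (P + 1 - l) + b * l + ∑ j ∈ Ico (P + 1 - l) (P + 1), c j ≤ J (P + 1)) :
    ∀ k ≤ n, J 0 + b * (k - ((range k).filter bad).card) + ∑ j ∈ range k, c j ≤ J k := by
  intro k
  induction k using Nat.strong_induction_on with
  | _ k ih =>
    intro hk
    rcases Nat.eq_zero_or_pos k with h0 | h0
    · subst h0
      simp
    obtain ⟨P, rfl⟩ : ∃ P, k = P + 1 := ⟨k - 1, by omega⟩
    by_cases hbad : bad P
    · have i1 := ih P (Nat.lt_succ_self P) (by omega)
      have i2 := h1 P (by omega)
      have i3 : ((range (P + 1)).filter bad).card = ((range P).filter bad).card + 1 := by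
        rw [Finset.range_add_one, Finset.filter_insert, if_pos hbad,
          Finset.card_insert_of_notMem (by simp)]
      rw [i3, Finset.sum_range_succ]
      push_cast
      have i4 : (P : ℝ) + 1 - (((range P).filter bad).card + 1) =
          P - ((range P).filter bad).card := by ring
      rw [i4]
      linarith
    · obtain ⟨l, hl1, hl2, hl3⟩ := h2 P (by omega) hbad
      have i1 := ih (P + 1 - l) (by omega) (by omega)
      have i3 : (((range (P + 1 - l)).filter bad).card : ℝ) ≤
          ((range (P + 1)).filter bad).card := by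
        have : (range (P + 1 - l)).filter bad ⊆ (range (P + 1)).filter bad :=
          Finset.filter_subset_filter _ (Finset.range_subset_range.2 (by omega))
        exact_mod_cast Finset.card_le_card this
      have i4 : ∑ j ∈ range (P + 1), c j = ∑ j ∈ range (P + 1 - l), c j +
          ∑ j ∈ Ico (P + 1 - l) (P + 1), c j :=
        (Finset.sum_range_add_sum_Ico _ (by omega)).symm
      have i5 : ((P + 1 - l : ℕ) : ℝ) = ((P + 1 : ℕ) : ℝ) - l := by
        rw [Nat.cast_sub hl2]
      rw [i5] at i1
      rw [i4]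
      have i6 : b * (((P + 1 : ℕ) : ℝ) - ((range (P + 1)).filter bad).card) ≤
          b * (((P + 1 : ℕ) : ℝ) - ((range (P + 1 - l)).filter bad).card) :=
        mul_le_mul_of_nonneg_left (by linarith) hb
      have i7 : b * (((P + 1 : ℕ) : ℝ) - l - ((range (P + 1 - l)).filter bad).card) + b * l =
          b * (((P + 1 : ℕ) : ℝ) - ((range (P + 1 - l)).filter bad).card) := by ring
      linarith

lemma markov1 {Ω : Type} [Fintype Ω] {p : Ω → ℝ} (hp : ∀ ω, 0 ≤ p ω) {R : Ω → ℝ}
    (hR : ∀ ω, 0 < p ω → 0 ≤ R ω) (h1 : Ex p R ≤ 1) (x : ℝ) :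
    Pr p {ω | Real.exp x < R ω} ≤ Real.exp (-x) := by
  have h2 := CDF.markov hp R hR (Real.exp x)
  have h3 : Pr p {ω | Real.exp x < R ω} * Real.exp x ≤ 1 := h2.trans h1
  rw [Real.exp_neg, ← one_div, le_div_iff₀ (Real.exp_pos x)]
  exact h3

section

variable {Ω κ : Type} {α β : ℕ → Type} [Fintype Ω] (p : Ω → ℝ) (Q : Ω → κ)
    (X : ∀ k, Ω → α k) (W : ∀ k, Ω → β k)

/-- The label of the state `(i, k)`. -/
def A (i k : ℕ) (ω : Ω) : κ × α i × β k := (Q ω, X i ω, W k ω)

/-- Its information. -/
noncomputable def jn (i k : ℕ) (ω : Ω) : ℝ := -Real.log (law p (A Q X W i k) (A Q X W i k ω))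

/-- The contribution of the rows of the tangential position at the row `k`. -/
noncomputable def cc (k : ℕ) (ω : Ω) : ℝ := jn p Q X W k (k + 1) ω - jn p Q X W k k ω

/-- The likelihood ratio of the rows of the tangential position. -/
noncomputable def RW (i k : ℕ) (ω : Ω) : ℝ :=
  Real.exp (∑ j ∈ Ico i k, cc p Q X W j ω - (jn p Q X W i k ω - jn p Q X W i i ω))

variable {p Q X W}

lemma det_X (hX : ∀ k, Det p (fun ω => (Q ω, X (k + 1) ω)) (X k)) {i k : ℕ} (hik : i ≤ k)
    {ω ω' : Ω} (h : 0 < p ω) (h' : 0 < p ω') (hQ : Q ω = Q ω') (he : X k ω = X k ω') :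
    X i ω = X i ω' := by
  obtain ⟨m, rfl⟩ := Nat.exists_eq_add_of_le hik
  induction m with
  | zero => exact he
  | succ m ih =>
    refine ih (Nat.le_add_right _ _) (hX (i + m) ω ω' h h' ?_)
    simp only [Prod.mk.injEq]
    exact ⟨hQ, he⟩

lemma det_A (hX : ∀ k, Det p (fun ω => (Q ω, X (k + 1) ω)) (X k))
    (hW : ∀ k, Det p (fun ω => (Q ω, W (k + 1) ω)) (W k)) {i i' k k' : ℕ} (hi : i ≤ i')
    (hk : k ≤ k') : Det p (A Q X W i' k') (A Q X W i k) := by
  intro ω ω' h h' he
  simp only [A, Prod.mk.injEq] at he ⊢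
  exact ⟨he.1, det_X hX hi h h' he.1 he.2.1, det_X hW hk h h' he.1 he.2.2⟩

lemma jn_congr (hX : ∀ k, Det p (fun ω => (Q ω, X (k + 1) ω)) (X k))
    (hW : ∀ k, Det p (fun ω => (Q ω, W (k + 1) ω)) (W k)) {i i' k k' : ℕ} (hi : i ≤ i')
    (hk : k ≤ k') {ω ω' : Ω} (h : 0 < p ω) (h' : 0 < p ω')
    (he : A Q X W i' k' ω = A Q X W i' k' ω') : jn p Q X W i k ω = jn p Q X W i k ω' := by
  unfold jn
  rw [det_A hX hW hi hk ω ω' h h' he]

lemma RW_le (hp : IsLaw p) (hX : ∀ k, Det p (fun ω => (Q ω, X (k + 1) ω)) (X k))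
    (hW : ∀ k, Det p (fun ω => (Q ω, W (k + 1) ω)) (W k)) {i k : ℕ} (hik : i ≤ k) :
    Ex p (RW p Q X W i k) ≤ 1 := by
  induction k, hik using Nat.le_induction with
  | base =>
    refine le_of_eq ?_
    unfold Ex RW
    simp only [Finset.Ico_self, Finset.sum_empty, sub_self, Real.exp_zero, mul_one]
    exact hp.sum_one
  | succ k hik ih =>
    have h1 := lr_step hp.nonneg (S := A Q X W k k) (a := A Q X W i k) (a' := A Q X W i (k + 1))
      (s' := A Q X W k (k + 1)) (f := RW p Q X W i k) (det_A hX hW hik le_rfl)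
      (by
        intro ω ω' h h' he
        simp only [A, Prod.mk.injEq] at he ⊢
        exact ⟨he.1.1, he.2.2.1, he.1.2.2⟩)
      (det_A hX hW le_rfl (Nat.le_succ k)) (fun ω => (Real.exp_pos _).le)
      (by
        intro ω ω' h h' he
        unfold RW
        have e1 : ∀ j ∈ Ico i k, cc p Q X W j ω = cc p Q X W j ω' := by
          intro j hj
          have hj' := (mem_Ico.1 hj).2
          unfold cc
          rw [jn_congr hX hW hj'.le hj' h h' he, jn_congr hX hW hj'.le hj'.le h h' he]
        rw [Finset.sum_congr rfl e1, jn_congr hX hW hik le_rfl h h' he,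
          jn_congr hX hW hik hik h h' he])
    refine le_trans (Ex_mono hp.nonneg fun ω hω => ?_) (h1.trans ih)
    have l1 := law_pos hp.nonneg (A Q X W k k) hω
    have l2 := law_pos hp.nonneg (A Q X W i k) hω
    have l3 := law_pos hp.nonneg (A Q X W i (k + 1)) hω
    have l4 := law_pos hp.nonneg (A Q X W k (k + 1)) hω
    refine le_of_eq ?_
    have e1 : law p (A Q X W k k) (A Q X W k k ω) * law p (A Q X W i (k + 1))
        (A Q X W i (k + 1) ω) / (law p (A Q X W k (k + 1)) (A Q X W k (k + 1) ω) *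
        law p (A Q X W i k) (A Q X W i k ω)) =
        Real.exp (cc p Q X W k ω - (jn p Q X W i (k + 1) ω - jn p Q X W i k ω)) := by
      unfold cc jn
      rw [← Real.exp_log (show 0 < law p (A Q X W k k) (A Q X W k k ω) *
        law p (A Q X W i (k + 1)) (A Q X W i (k + 1) ω) /
        (law p (A Q X W k (k + 1)) (A Q X W k (k + 1) ω) *
        law p (A Q X W i k) (A Q X W i k ω)) by positivity),
        Real.log_div (by positivity) (by positivity), Real.log_mul l1.ne' l3.ne',
        Real.log_mul l4.ne' l2.ne']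
      congr 1
      ring
    rw [e1]
    unfold RW
    rw [← Real.exp_add, Finset.sum_Ico_succ_top hik]
    congr 1
    ring

end

end PTI

open PTI in
open Classical in
/-- **Row PTI.** -/
theorem pti_thm : PTIStmt := by
  intro Ω κ ι α β γ _ p Q X W n LL len G c B b ε hp hε hb hX hW hB hG
  set J : ℕ → Ω → ℝ := fun k ω => jn p Q X W k k ω with hJ
  -- the two likelihood ratios
  set RN : ι → ℕ → Ω → ℝ := fun l P ω => law p (B l P) (B l P ω) *
      law p (fun v => (A Q X W (P + 1 - len l) (P + 1) v, X (P + 1) v))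
        (A Q X W (P + 1 - len l) (P + 1) ω, X (P + 1) ω) /
      (law p (fun v => (B l P v, X (P + 1) v)) (B l P ω, X (P + 1) ω) *
        law p (A Q X W (P + 1 - len l) (P + 1)) (A Q X W (P + 1 - len l) (P + 1) ω)) with hRN
  have hRN1 : ∀ P < n, ∀ l ∈ LL, len l ≤ P + 1 → Ex p (RN l P) ≤ 1 := by
    intro P hP l hl hlen
    have h1 := lr_step hp.nonneg (S := B l P) (a := A Q X W (P + 1 - len l) (P + 1))
      (a' := fun v => (A Q X W (P + 1 - len l) (P + 1) v, X (P + 1) v))
      (s' := fun v => (B l P v, X (P + 1) v)) (f := fun _ => 1) (hB P hP l hl hlen)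
      (by
        intro ω ω' h h' he
        simp only [Prod.mk.injEq] at he ⊢
        exact ⟨he.2, he.1.2⟩)
      (by
        intro ω ω' h h' he
        simp only [Prod.mk.injEq] at he
        exact he.1) (fun _ => zero_le_one) (fun _ _ _ _ _ => rfl)
    have h2 : Ex p (fun _ : Ω => (1 : ℝ)) = 1 := by
      unfold Ex
      simp only [mul_one]
      exact hp.sum_one
    rw [h2] at h1
    refine le_trans (le_of_eq ?_) h1
    congr 1
    funext ω
    rw [one_mul]
  -- the bad events
  obtain ⟨E1, hE1⟩ : ∃ E1 : ι → ℕ → Set Ω, ∀ l P ω, ω ∈ E1 l P ↔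
      Real.exp (ε * len l) < RW p Q X W (P + 1 - len l) (P + 1) ω :=
    ⟨fun l P => {ω | Real.exp (ε * len l) < RW p Q X W (P + 1 - len l) (P + 1) ω},
      fun _ _ _ => Iff.rfl⟩
  obtain ⟨E2, hE2⟩ : ∃ E2 : ι → ℕ → Set Ω, ∀ l P ω, ω ∈ E2 l P ↔
      (len l ≤ P + 1 ∧ Real.exp (ε * len l) < RN l P ω) :=
    ⟨fun l P => {ω | len l ≤ P + 1 ∧ Real.exp (ε * len l) < RN l P ω}, fun _ _ _ => Iff.rfl⟩
  have hP1 : ∀ l P, Pr p (E1 l P) ≤ Real.exp (-(ε * len l)) := by
    intro l P
    have h1 := markov1 hp.nonneg (R := RW p Q X W (P + 1 - len l) (P + 1))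
      (fun ω _ => (Real.exp_pos _).le) (RW_le hp hX hW (Nat.sub_le _ _)) (ε * len l)
    have h2 : E1 l P = {ω | Real.exp (ε * len l) < RW p Q X W (P + 1 - len l) (P + 1) ω} := by
      ext ω
      exact hE1 l P ω
    rw [h2]
    exact h1
  have hP2 : ∀ P < n, ∀ l ∈ LL, Pr p (E2 l P) ≤ Real.exp (-(ε * len l)) := by
    intro P hP l hl
    by_cases hlen : len l ≤ P + 1
    · have h1 := markov1 hp.nonneg (R := RN l P) (fun ω hω => by
        simp only [hRN]
        have l1 := law_pos hp.nonneg (B l P) hω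
        have l2 := law_nonneg hp.nonneg
          (fun v => (A Q X W (P + 1 - len l) (P + 1) v, X (P + 1) v))
          (A Q X W (P + 1 - len l) (P + 1) ω, X (P + 1) ω)
        have l3 := law_nonneg hp.nonneg (fun v => (B l P v, X (P + 1) v))
          (B l P ω, X (P + 1) ω)
        have l4 := law_nonneg hp.nonneg (A Q X W (P + 1 - len l) (P + 1))
          (A Q X W (P + 1 - len l) (P + 1) ω)
        positivity) (hRN1 P hP l hl hlen) (ε * len l)
      have h2 : E2 l P = {ω | Real.exp (ε * len l) < RN l P ω} := by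
        ext ω
        rw [hE2]
        exact ⟨fun h => h.2, fun h => ⟨hlen, h⟩⟩
      rw [h2]
      exact h1
    · have h2 : E2 l P = ∅ := by
        ext ω
        rw [hE2]
        exact ⟨fun h => (hlen h.1).elim, fun h => h.elim⟩
      rw [h2, CDF.Pr_eq]
      simp only [Set.mem_empty_iff_false, if_false, Finset.sum_const_zero]
      exact (Real.exp_pos _).le
  obtain ⟨Gc, hGc⟩ : ∃ Gc : ℕ → Set Ω, ∀ P, Gc P = (G P)ᶜ := ⟨fun P => (G P)ᶜ, fun _ => rfl⟩
  simp only [← hGc]
  obtain ⟨bad, hbad⟩ : ∃ bad : Ω → ℕ → Prop, ∀ ω P, bad ω P ↔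
      (ω ∈ Gc P ∨ ∃ l ∈ LL, ω ∈ E1 l P ∨ ω ∈ E2 l P) :=
    ⟨fun ω P => ω ∈ Gc P ∨ ∃ l ∈ LL, ω ∈ E1 l P ∨ ω ∈ E2 l P, fun _ _ => Iff.rfl⟩
  -- the tiling of one path
  have htile : ∀ ω, 0 < p ω → J 0 ω + (b - 2 * ε) * (n - ((range n).filter (bad ω)).card) +
      ∑ j ∈ range n, cc p Q X W j ω ≤ J n ω := by
    intro ω hω
    refine tiling (fun k => J k ω) (fun k => cc p Q X W k ω) (b - 2 * ε) (by linarith) (bad ω) n
      ?_ ?_ n le_rfl
    · intro P _
      have h1 : jn p Q X W P (P + 1) ω ≤ jn p Q X W (P + 1) (P + 1) ω := by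
        unfold jn
        have := law_mono_of_det hp.nonneg (det_A hX hW (Nat.le_succ P) (le_refl (P + 1))) hω
        have l1 := law_pos hp.nonneg (A Q X W (P + 1) (P + 1)) hω
        exact neg_le_neg (Real.log_le_log l1 this)
      simp only [hJ, PTI.cc]
      linarith
    · intro P hP hnb
      simp only [hbad, hGc, not_or, not_exists, not_and, Set.mem_compl_iff, not_not] at hnb
      obtain ⟨hω1, hω2⟩ := hnb
      obtain ⟨g1, g2, g3, g4⟩ := hG P hP ω hω1 hω
      obtain ⟨g5, g6⟩ := hω2 (c P ω) g1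
      rw [hE1] at g5
      rw [hE2] at g6
      push Not at g5 g6
      have g7 := g6 g3
      refine ⟨len (c P ω), g2, g3, ?_⟩
      set l := c P ω with hl
      set i := P + 1 - len l with hi
      have l1 := law_pos hp.nonneg (B l P) hω
      have l2 := law_pos hp.nonneg (fun v => (A Q X W i (P + 1) v, X (P + 1) v)) hω
      have l3 := law_pos hp.nonneg (fun v => (B l P v, X (P + 1) v)) hω
      have l4 := law_pos hp.nonneg (A Q X W i (P + 1)) hω
      have l5 := law_pos hp.nonneg (A Q X W (P + 1) (P + 1)) hω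
      have k1 : ∑ j ∈ Ico i (P + 1), cc p Q X W j ω -
          (jn p Q X W i (P + 1) ω - jn p Q X W i i ω) ≤ ε * len l := by
        unfold RW at g5
        exact Real.exp_le_exp.1 g5
      -- the rows of the normal position
      have k2 : law p (A Q X W (P + 1) (P + 1)) (A Q X W (P + 1) (P + 1) ω) ≤
          law p (fun v => (A Q X W i (P + 1) v, X (P + 1) v))
            (A Q X W i (P + 1) ω, X (P + 1) ω) := by
        refine law_mono_of_det (X := A Q X W (P + 1) (P + 1))
          (Y := fun v => (A Q X W i (P + 1) v, X (P + 1) v)) hp.nonneg ?_ hω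
        intro u u' h h' he
        have a1 := det_A hX hW (show i ≤ P + 1 by omega) (le_refl (P + 1)) u u' h h' he
        simp only [A, Prod.mk.injEq] at he a1 ⊢
        exact ⟨a1, he.2.1⟩
      have k3 : law p (fun v => (B l P v, X (P + 1) v)) (B l P ω, X (P + 1) ω) ≤
          Real.exp (-(b * len l)) * law p (B l P) (B l P ω) := by
        have a1 : law (Pool.Agent.H49.Ent.cond p (B l P) (B l P ω)) (X (P + 1)) (X (P + 1) ω) =
            law p (fun v => (B l P v, X (P + 1) v)) (B l P ω, X (P + 1) ω) /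
              law p (B l P) (B l P ω) := by
          rw [law_cond]
          congr 1
          unfold law
          refine Finset.sum_congr rfl fun v _ => ?_
          by_cases hv : X (P + 1) v = X (P + 1) ω ∧ B l P v = B l P ω
          · rw [if_pos (by simp only [Prod.mk.injEq]; exact hv),
              if_pos (by simp only [Prod.mk.injEq]; exact hv.symm)]
          · rw [if_neg (by simp only [Prod.mk.injEq]; exact hv),
              if_neg (by simp only [Prod.mk.injEq]; exact fun h => hv h.symm)]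
        rw [a1, div_le_iff₀ l1] at g4
        exact g4
      have k4 : law p (A Q X W (P + 1) (P + 1)) (A Q X W (P + 1) (P + 1) ω) ≤
          Real.exp (ε * len l - b * len l) * law p (A Q X W i (P + 1)) (A Q X W i (P + 1) ω) := by
        refine k2.trans ?_
        have g8 := g7
        simp only [hRN] at g8
        rw [div_le_iff₀ (mul_pos l3 l4)] at g8
        have g9 : law p (B l P) (B l P ω) *
            law p (fun v => (A Q X W i (P + 1) v, X (P + 1) v))
              (A Q X W i (P + 1) ω, X (P + 1) ω) ≤ law p (B l P) (B l P ω) *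
            (Real.exp (ε * len l - b * len l) *
              law p (A Q X W i (P + 1)) (A Q X W i (P + 1) ω)) := by
          refine g8.trans ?_
          have g10 : Real.exp (ε * len l) * (law p (fun v => (B l P v, X (P + 1) v))
              (B l P ω, X (P + 1) ω) * law p (A Q X W i (P + 1)) (A Q X W i (P + 1) ω)) ≤
              Real.exp (ε * len l) * ((Real.exp (-(b * len l)) * law p (B l P) (B l P ω)) *
                law p (A Q X W i (P + 1)) (A Q X W i (P + 1) ω)) :=
            mul_le_mul_of_nonneg_left (mul_le_mul_of_nonneg_right k3 l4.le) (Real.exp_pos _).le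
          refine g10.trans (le_of_eq ?_)
          rw [sub_eq_add_neg, Real.exp_add]
          ring
        exact le_of_mul_le_mul_left g9 l1
      have k5 : jn p Q X W i (P + 1) ω + (b - ε) * len l ≤ jn p Q X W (P + 1) (P + 1) ω := by
        unfold jn
        have a1 := Real.log_le_log l5 k4
        rw [Real.log_mul (Real.exp_pos _).ne' l4.ne', Real.log_exp] at a1
        linarith
      simp only [hJ]
      linarith
  -- the number of bad rows
  have hcount : Ex p (fun ω => (((range n).filter (bad ω)).card : ℝ)) ≤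
      ∑ P ∈ range n, Pr p (Gc P) + 2 * n * ∑ l ∈ LL, Real.exp (-(ε * len l)) := by
    have c1 : ∀ ω, (((range n).filter (bad ω)).card : ℝ) ≤ ∑ P ∈ range n,
        ((if ω ∈ Gc P then (1 : ℝ) else 0) + ∑ l ∈ LL, ((if ω ∈ E1 l P then (1 : ℝ) else 0) +
          (if ω ∈ E2 l P then (1 : ℝ) else 0))) := by
      intro ω
      rw [Finset.card_filter]
      push_cast
      refine Finset.sum_le_sum fun P _ => ?_
      have c2 : ∀ l ∈ LL, 0 ≤ ((if ω ∈ E1 l P then (1 : ℝ) else 0) +
          (if ω ∈ E2 l P then (1 : ℝ) else 0)) := by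
        intro l _
        split_ifs <;> norm_num
      by_cases hb1 : bad ω P
      · rw [if_pos hb1]
        rcases (hbad ω P).1 hb1 with h | ⟨l, hl, h⟩
        · rw [if_pos h]
          linarith [Finset.sum_nonneg c2]
        · have c3 := Finset.single_le_sum c2 hl
          have c4 : (1 : ℝ) ≤ ((if ω ∈ E1 l P then (1 : ℝ) else 0) +
              (if ω ∈ E2 l P then (1 : ℝ) else 0)) := by
            rcases h with h | h
            · rw [if_pos h]
              split_ifs <;> norm_num
            · rw [if_pos h]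
              split_ifs <;> norm_num
          have c5 : (0 : ℝ) ≤ if ω ∈ Gc P then (1 : ℝ) else 0 := by
            split_ifs <;> norm_num
          linarith
      · rw [if_neg hb1]
        have c5 : (0 : ℝ) ≤ if ω ∈ Gc P then (1 : ℝ) else 0 := by
          split_ifs <;> norm_num
        linarith [Finset.sum_nonneg c2]
    have c6 : Ex p (fun ω => (((range n).filter (bad ω)).card : ℝ)) ≤ ∑ P ∈ range n,
        (Pr p (Gc P) + ∑ l ∈ LL, (Pr p (E1 l P) + Pr p (E2 l P))) := by
      refine (Ex_mono hp.nonneg fun ω _ => c1 ω).trans (le_of_eq ?_)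
      unfold Ex
      simp_rw [Finset.mul_sum]
      rw [Finset.sum_comm]
      refine Finset.sum_congr rfl fun P _ => ?_
      simp_rw [mul_add, Finset.mul_sum]
      rw [Finset.sum_add_distrib, CDF.Pr_eq]
      congr 1
      · refine Finset.sum_congr rfl fun ω _ => ?_
        rw [mul_ite, mul_one, mul_zero]
      · rw [Finset.sum_comm]
        refine Finset.sum_congr rfl fun l _ => ?_
        rw [CDF.Pr_eq, CDF.Pr_eq, ← Finset.sum_add_distrib]
        refine Finset.sum_congr rfl fun ω _ => ?_
        rw [mul_add, mul_ite, mul_ite, mul_one, mul_zero]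
    refine c6.trans ?_
    rw [Finset.sum_add_distrib]
    refine add_le_add le_rfl ?_
    have c7 : ∀ P ∈ range n, ∑ l ∈ LL, (Pr p (E1 l P) + Pr p (E2 l P)) ≤
        2 * ∑ l ∈ LL, Real.exp (-(ε * len l)) := by
      intro P hP
      rw [Finset.mul_sum]
      refine Finset.sum_le_sum fun l hl => ?_
      have := hP1 l P
      have := hP2 P (mem_range.1 hP) l hl
      linarith
    refine (Finset.sum_le_sum c7).trans (le_of_eq ?_)
    rw [Finset.sum_const, Finset.card_range, nsmul_eq_mul]
    ring
  -- expectations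
  have hHJ : ∀ i k, Ex p (jn p Q X W i k) = H p (A Q X W i k) := by
    intro i k
    unfold Ex jn H
    rw [← Finset.sum_neg_distrib]
    refine Finset.sum_congr rfl fun ω _ => ?_
    ring
  have hcc : ∀ k, Ex p (cc p Q X W k) = CH p (W (k + 1)) (fun ω => (Q ω, X k ω, W k ω)) := by
    intro k
    have a1 : Ex p (cc p Q X W k) = H p (A Q X W k (k + 1)) - H p (A Q X W k k) := by
      rw [← hHJ, ← hHJ, ← Ex_sub]
      rfl
    rw [a1]
    unfold CH
    congr 1
    refine H_congr hp.nonneg ?_ ?_
    · intro ω ω' h h' he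
      simp only [A, Prod.mk.injEq] at he ⊢
      exact ⟨he.2.1, he.2.2.1, he.1⟩
    · intro ω ω' h h' he
      have a2 := det_A hX hW (le_refl k) (Nat.le_succ k) ω ω' h h' he
      simp only [A, Prod.mk.injEq] at he a2 ⊢
      exact ⟨he.2.2, a2⟩
  have hend : CH p (fun ω => (X n ω, W n ω)) (fun ω => (Q ω, X 0 ω, W 0 ω)) =
      Ex p (J n) - Ex p (J 0) := by
    have a1 : Ex p (J n) = H p (A Q X W n n) := hHJ n n
    have a2 : Ex p (J 0) = H p (A Q X W 0 0) := hHJ 0 0
    rw [a1, a2]
    unfold CH
    congr 1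
    refine H_congr hp.nonneg ?_ ?_
    · intro ω ω' h h' he
      have a2 := det_A hX hW (Nat.zero_le n) (Nat.zero_le n) ω ω' h h' he
      simp only [A, Prod.mk.injEq] at he a2 ⊢
      exact ⟨he.2, a2⟩
    · intro ω ω' h h' he
      simp only [A, Prod.mk.injEq] at he ⊢
      exact ⟨he.2.1, he.1.1, he.1.2⟩
  have hfin : Ex p (fun ω => J 0 ω + (b - 2 * ε) * (n - ((range n).filter (bad ω)).card) +
      ∑ j ∈ range n, cc p Q X W j ω) ≤ Ex p (J n) := Ex_mono hp.nonneg htile
  have hexp : Ex p (fun ω => J 0 ω + (b - 2 * ε) * (n - ((range n).filter (bad ω)).card) +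
      ∑ j ∈ range n, cc p Q X W j ω) = Ex p (J 0) + (b - 2 * ε) * (n -
      Ex p (fun ω => (((range n).filter (bad ω)).card : ℝ))) +
      ∑ k ∈ range n, CH p (W (k + 1)) (fun ω => (Q ω, X k ω, W k ω)) := by
    rw [← Finset.sum_congr rfl fun k _ => hcc k, ← WDC.Ex_sum]
    unfold Ex
    have d1 : ∑ ω, p ω * (n : ℝ) = n := by
      rw [← Finset.sum_mul, hp.sum_one, one_mul]
    have d2 : ∀ ω, p ω * (J 0 ω + (b - 2 * ε) * (n - ((range n).filter (bad ω)).card) +
        ∑ j ∈ range n, cc p Q X W j ω) = p ω * J 0 ω + ((b - 2 * ε) * (p ω * (n : ℝ)) -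
        (b - 2 * ε) * (p ω * ((range n).filter (bad ω)).card)) +
        p ω * ∑ j ∈ range n, cc p Q X W j ω := by
      intro ω
      ring
    rw [Finset.sum_congr rfl fun ω _ => d2 ω, Finset.sum_add_distrib, Finset.sum_add_distrib,
      Finset.sum_sub_distrib, ← Finset.mul_sum, ← Finset.mul_sum, d1]
    ring
  rw [hexp] at hfin
  rw [hend]
  have hm : (b - 2 * ε) * (n - ∑ P ∈ range n, Pr p (Gc P) -
      2 * n * ∑ l ∈ LL, Real.exp (-(ε * len l))) ≤ (b - 2 * ε) * (n -
      Ex p (fun ω => (((range n).filter (bad ω)).card : ℝ))) :=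
    mul_le_mul_of_nonneg_left (by linarith) (by linarith)
  linarith

end Pool.KX
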