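import Pool.Agent.H70.K2.MarDefs
import Pool.Agent.H97.KAL.CDF

/-!
# Row PLI: place dependent Pliss lemma
-/

set_option autoImplicit false

namespace Pool.KX

open Finset Real
open Pool.Agent.H49.Ent Pool.Agent.H32.Dense Pool.STK Pool.KAF Pool.KAL

namespace PLI

open Classical in
/-- Times `P < n` all of whose backward sums are nonnegative. -/
noncomputable def rcd (a : ℕ → ℝ) (n : ℕ) : Finset ℕ :=
  (range n).filter fun P => ∀ m ≤ P, 0 ≤ ∑ j ∈ Ico m (P + 1), a j

lemma rcd_succ_pos {a : ℕ → ℝ} {n : ℕ} (h : ∀ m ≤ n, 0 ≤ ∑ j ∈ Ico m (n + 1), a j) :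
    (rcd a (n + 1)).card = (rcd a n).card + 1 := by
  classical
  unfold rcd
  rw [Finset.range_add_one, Finset.filter_insert, if_pos h, Finset.card_insert_of_notMem]
  simp

lemma rcd_mono (a : ℕ → ℝ) (n : ℕ) : (rcd a n).card ≤ (rcd a (n + 1)).card := by
  classical
  refine Finset.card_le_card ?_
  unfold rcd
  refine Finset.filter_subset_filter _ ?_
  exact Finset.range_subset_range.2 (Nat.le_succ n)

/-- The prefix sums are at most the number of records. -/
lemma sum_le_rcd (a : ℕ → ℝ) {b : ℝ} (hb : 0 ≤ b) (h : ∀ j, a j ≤ b) (n : ℕ) :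
    ∀ m ≤ n, ∑ j ∈ range m, a j ≤ b * (rcd a n).card := by
  induction n with
  | zero =>
    intro m hm
    have : m = 0 := by omega
    subst this
    simp only [Finset.range_zero, Finset.sum_empty]
    positivity
  | succ n ih =>
    have hmono : (((rcd a n).card : ℕ) : ℝ) ≤ (rcd a (n + 1)).card := by
      exact_mod_cast rcd_mono a n
    intro m hm
    rcases Nat.lt_or_ge m (n + 1) with h1 | h1
    · exact (ih m (by omega)).trans (mul_le_mul_of_nonneg_left hmono hb)
    · have h2 : m = n + 1 := by omega
      subst h2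
      by_cases h3 : ∀ m ≤ n, 0 ≤ ∑ j ∈ Ico m (n + 1), a j
      · rw [Finset.sum_range_succ, rcd_succ_pos h3]
        push_cast
        have := ih n le_rfl
        have := h n
        linarith
      · push Not at h3
        obtain ⟨k, hk, h4⟩ := h3
        have h5 : ∑ j ∈ range (n + 1), a j = ∑ j ∈ range k, a j + ∑ j ∈ Ico k (n + 1), a j := by
          rw [Finset.sum_range_add_sum_Ico _ (by omega)]
        rw [h5]
        have h6 := (ih k hk).trans (mul_le_mul_of_nonneg_left hmono hb)
        linarith

end PLI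

open PLI in
open Classical in
/-- **Row PLI.** -/
theorem pli_thm : PLIStmt := by
  intro Ω γ _ p N δ err D g L Bad c e η η' hp hη hη' hc he h0 hD h1 hBad hL
  -- pointwise
  have hc0 : 0 < c := hη'.trans hc
  set RP : Ω → Finset ℕ := fun ω => rcd (fun j => δ j ω - c) N with hRP
  set NM : Ω → Finset ℕ := fun ω => rcd (fun j => η' - err j ω) N with hNM
  have a1 : ∀ ω, ∑ P ∈ range N, δ P ω ≤ c * N + (RP ω).card := by
    intro ω
    have := sum_le_rcd (fun j => δ j ω - c) zero_le_one (fun j => by
      have := (h0 j ω).2.1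
      linarith) N N le_rfl
    rw [Finset.sum_sub_distrib, Finset.sum_const, Finset.card_range, nsmul_eq_mul, one_mul] at this
    linarith
  have a2 : ∀ ω, η' * N - ∑ P ∈ range N, err P ω ≤ η' * (NM ω).card := by
    intro ω
    have := sum_le_rcd (fun j => η' - err j ω) hη'.le (fun j => by
      have := (h0 j ω).2.2
      linarith) N N le_rfl
    rw [Finset.sum_sub_distrib, Finset.sum_const, Finset.card_range, nsmul_eq_mul] at this
    linarith
  have a3 : ∀ ω, ((RP ω).card : ℝ) ≤ (N - (NM ω).card) + ((RP ω ∩ NM ω).card : ℝ) := by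
    intro ω
    have b1 : (RP ω).card + (NM ω).card = (RP ω ∪ NM ω).card + (RP ω ∩ NM ω).card :=
      (Finset.card_union_add_card_inter _ _).symm
    have b2 : (RP ω ∪ NM ω).card ≤ N := by
      have : RP ω ∪ NM ω ⊆ range N :=
        Finset.union_subset (Finset.filter_subset _ _) (Finset.filter_subset _ _)
      have := Finset.card_le_card this
      rwa [Finset.card_range] at this
    have b3 : ((RP ω).card : ℝ) + (NM ω).card ≤ N + (RP ω ∩ NM ω).card := by
      exact_mod_cast b1.le.trans (Nat.add_le_add_right b2 _)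
    linarith
  obtain ⟨S, hS⟩ : ∃ S : ℕ → Set Ω, ∀ P ω, ω ∈ S P ↔ (P ∈ RP ω ∩ NM ω ∧ g P ω ∉ Bad P) :=
    ⟨fun P => {ω | P ∈ RP ω ∩ NM ω ∧ g P ω ∉ Bad P}, fun _ _ => Iff.rfl⟩
  obtain ⟨S', hS'⟩ : ∃ S' : ℕ → Set Ω, ∀ P, S' P = {ω | g P ω ∈ Bad P} :=
    ⟨fun P => {ω | g P ω ∈ Bad P}, fun _ => rfl⟩
  -- one row
  have a4 : ∀ P < N, Pr p (S P) ≤ η / (c - η') := by
    intro P hP
    have hcη : 0 < c - η' := by linarith
    rw [CDF.Pr_eq]
    have b1 : (∑ ω, if ω ∈ S P then p ω else 0) =
        ∑ v ∈ univ.image (g P), ∑ ω, if g P ω = v then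
          (if ω ∈ S P then p ω else 0) else 0 := by
      rw [Finset.sum_comm]
      refine Finset.sum_congr rfl fun ω _ => ?_
      rw [Finset.sum_ite_eq, if_pos (Finset.mem_image_of_mem _ (Finset.mem_univ ω))]
    rw [b1]
    have b2 : ∀ v ∈ univ.image (g P), (∑ ω, if g P ω = v then
          (if ω ∈ S P then p ω else 0) else 0) ≤
        η / (c - η') * law p (g P) v := by
      intro v _
      have hlaw := law_nonneg hp.nonneg (g P) v
      by_cases hv : v ∈ Bad P
      · rw [Finset.sum_eq_zero]
        · positivity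
        · intro ω _
          by_cases hg : g P ω = v
          · rw [if_pos hg, if_neg]
            intro hb
            have hb := ((hS P ω).1 hb).2
            rw [hg] at hb
            exact hb hv
          · rw [if_neg hg]
      · obtain ⟨hL1, hL2, hL3⟩ := hL P hP v hv
        have hL0 : (0 : ℝ) < L P v := by exact_mod_cast hL1
        have c1 : (c - η') * L P v * (∑ ω, if g P ω = v then
            (if ω ∈ S P then p ω else 0) else 0) ≤
            ∑ ω, (if g P ω = v then p ω * ∑ j ∈ Ico (P + 1 - L P v) (P + 1), D P j ω else 0) := by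
          rw [Finset.mul_sum]
          refine Finset.sum_le_sum fun ω _ => ?_
          by_cases hg : g P ω = v
          · rw [if_pos hg, if_pos hg]
            have hDs : 0 ≤ ∑ j ∈ Ico (P + 1 - L P v) (P + 1), D P j ω :=
              Finset.sum_nonneg fun j _ => hD P j ω
            by_cases hω : ω ∈ S P
            · rw [if_pos hω]
              rcases (hp.nonneg ω).eq_or_lt with h2 | h2
              · rw [← h2]
                simp
              · have hω1 := ((hS P ω).1 hω).1
                rw [Finset.mem_inter] at hω1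
                obtain ⟨hω1, hω2⟩ := hω1
                have d1 := (Finset.mem_filter.1 hω1).2 (P + 1 - L P v) (by omega)
                have d2 := (Finset.mem_filter.1 hω2).2 (P + 1 - L P v) (by omega)
                have hcard : ((Ico (P + 1 - L P v) (P + 1)).card : ℝ) = L P v := by
                  rw [Nat.card_Ico]
                  have : P + 1 - (P + 1 - L P v) = L P v := by omega
                  rw [this]
                rw [Finset.sum_sub_distrib, Finset.sum_const, nsmul_eq_mul, hcard] at d1 d2
                have d3 : ∑ j ∈ Ico (P + 1 - L P v) (P + 1), δ j ω ≤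
                    ∑ j ∈ Ico (P + 1 - L P v) (P + 1), D P j ω +
                      ∑ j ∈ Ico (P + 1 - L P v) (P + 1), err j ω := by
                  rw [← Finset.sum_add_distrib]
                  refine Finset.sum_le_sum fun j hj => ?_
                  exact h1 P hP j (by
                    have := (Finset.mem_Ico.1 hj).2
                    omega) ω h2
                have d4 : (c - η') * L P v ≤ ∑ j ∈ Ico (P + 1 - L P v) (P + 1), D P j ω := by
                  linarith
                rw [mul_comm]
                exact mul_le_mul_of_nonneg_left d4 h2.le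
            · rw [if_neg hω, mul_zero]
              exact mul_nonneg (hp.nonneg ω) hDs
          · rw [if_neg hg, if_neg hg, mul_zero]
        have c2 := c1.trans hL3
        have c3 : η * L P v * law p (g P) v = (c - η') * L P v *
            (η / (c - η') * law p (g P) v) := by
          field_simp
        rw [c3] at c2
        exact le_of_mul_le_mul_left c2 (by positivity)
    refine (Finset.sum_le_sum b2).trans (le_of_eq ?_)
    rw [← Finset.mul_sum, sum_law p (g P), hp.sum_one, mul_one]
  -- sum over the rows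
  have a5 : Ex p (fun ω => ((RP ω ∩ NM ω).card : ℝ)) ≤ (e + η / (c - η')) * N := by
    have b1 : ∀ ω, ((RP ω ∩ NM ω).card : ℝ) ≤ ∑ P ∈ range N,
        ((if ω ∈ S' P then 1 else 0) +
          (if ω ∈ S P then (1 : ℝ) else 0)) := by
      intro ω
      have hsub : RP ω ∩ NM ω ⊆ range N := fun x hx =>
        (Finset.mem_filter.1 (Finset.mem_inter.1 hx).1).1
      have e1 : ((RP ω ∩ NM ω).card : ℝ) = ∑ P ∈ range N,
          if P ∈ RP ω ∩ NM ω then (1 : ℝ) else 0 := by
        rw [Finset.sum_ite_mem, Finset.inter_eq_right.2 hsub, Finset.sum_const, nsmul_eq_mul,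
          mul_one]
      rw [e1]
      refine Finset.sum_le_sum fun P _ => ?_
      by_cases hx : P ∈ RP ω ∩ NM ω
      · rw [if_pos hx]
        by_cases hy : g P ω ∈ Bad P
        · rw [if_pos (show ω ∈ S' P by rw [hS']; exact hy)]
          split_ifs <;> norm_num
        · rw [if_pos (show ω ∈ S P from (hS P ω).2 ⟨hx, hy⟩)]
          split_ifs <;> norm_num
      · rw [if_neg hx]
        split_ifs <;> norm_num
    have b2 : Ex p (fun ω => ((RP ω ∩ NM ω).card : ℝ)) ≤ ∑ P ∈ range N,
        (Pr p (S' P) + Pr p (S P)) := by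
      unfold Ex
      refine (Finset.sum_le_sum fun ω _ => mul_le_mul_of_nonneg_left (b1 ω) (hp.nonneg ω)).trans
        (le_of_eq ?_)
      simp_rw [Finset.mul_sum]
      rw [Finset.sum_comm]
      refine Finset.sum_congr rfl fun P _ => ?_
      rw [CDF.Pr_eq, CDF.Pr_eq, ← Finset.sum_add_distrib]
      refine Finset.sum_congr rfl fun ω _ => ?_
      rw [mul_add, mul_ite, mul_ite, mul_one, mul_zero]
    refine b2.trans ((Finset.sum_le_sum fun P hP => add_le_add
      (le_of_eq_of_le (congrArg (Pr p) (hS' P)) (hBad P (mem_range.1 hP)))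
      (a4 P (mem_range.1 hP))).trans (le_of_eq ?_))
    rw [Finset.sum_const, Finset.card_range, nsmul_eq_mul, mul_comm]
  have a6 : ∀ ω, ∑ P ∈ range N, δ P ω ≤ c * N + (∑ P ∈ range N, err P ω) / η' +
      ((RP ω ∩ NM ω).card : ℝ) := by
    intro ω
    have b1 : (N : ℝ) - (NM ω).card ≤ (∑ P ∈ range N, err P ω) / η' := by
      rw [le_div_iff₀ hη']
      linarith [a2 ω]
    linarith [a1 ω, a3 ω]
  have a7 : ∑ ω, p ω * ∑ P ∈ range N, δ P ω ≤ ∑ ω, p ω * (c * N +
      (∑ P ∈ range N, err P ω) / η' + ((RP ω ∩ NM ω).card : ℝ)) :=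
    Finset.sum_le_sum fun ω _ => mul_le_mul_of_nonneg_left (a6 ω) (hp.nonneg ω)
  have a8 : ∑ ω, p ω * (c * N + (∑ P ∈ range N, err P ω) / η' + ((RP ω ∩ NM ω).card : ℝ)) =
      c * N + (∑ ω, p ω * ∑ P ∈ range N, err P ω) / η' +
        Ex p (fun ω => ((RP ω ∩ NM ω).card : ℝ)) := by
    unfold Ex
    simp_rw [mul_add]
    rw [Finset.sum_add_distrib, Finset.sum_add_distrib, ← Finset.sum_mul, hp.sum_one, one_mul,
      Finset.sum_div]
    congr 2
    refine Finset.sum_congr rfl fun ω _ => ?_
    rw [mul_div_assoc]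
  rw [a8] at a7
  refine a7.trans ?_
  have : (c + e + η / (c - η')) * N = c * N + (e + η / (c - η')) * N := by ring
  rw [this]
  linarith

end Pool.KX
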