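import Pool.Agent.H97.KAL.HBL

/-!
# Budgets along the path of a place, in adapted form

`V 0, V 1, ..` is a refining chain of labels (the contexts along the path of a place), `o` a block
whose entropy is the budget. Every selection is a function of the value of `V i`; the rows are
attached to their starting points by arbitrary functions of the place.
-/

set_option autoImplicit false

namespace Pool.KX

open Finset Real
open Pool.Agent.H49.Ent Pool.Agent.H32.Dense Pool.STK Pool.KAF Pool.KAL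

/-- `A` is a property of the value of `V` (on the support). -/
def Adp {Ω σ : Type} [Fintype Ω] (p : Ω → ℝ) (V : Ω → σ) (A : Ω → Prop) : Prop :=
  ∀ ω ω', 0 < p ω → 0 < p ω' → V ω = V ω' → A ω → A ω'

/-- Pointwise information of the block `o` about the next `k` steps of the chain. -/
noncomputable def ik {Ω O σ : Type} [Fintype Ω] (p : Ω → ℝ) (o : Ω → O) (V : ℕ → Ω → σ)
    (i k : ℕ) (ω : Ω) : ℝ :=
  H (cond p (V i) (V i ω)) o - CH (cond p (V i) (V i ω)) o (V (i + k))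

open Classical in
/-- WDB. Adapted budget: selected intervals `[i, i + k)` with multiplicity at most `M`. -/
def WDBStmt : Prop :=
  ∀ (Ω O σ : Type) [Fintype Ω] (p : Ω → ℝ) (o : Ω → O) (V : ℕ → Ω → σ) (A : ℕ → Ω → Prop)
    (n k M : ℕ), IsLaw p → (∀ i, Det p (V (i + 1)) (V i)) → (∀ i, Adp p (V i) (A i)) →
    (∀ ω, 0 < p ω → ∀ j, ((range n).filter fun i => i ≤ j ∧ j < i + k ∧ A i ω).card ≤ M) →
    ∑ i ∈ range n, Ex p (fun ω => if A i ω then ik p o V i k ω else 0) ≤ M * CH p o (V 0)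

open Classical in
/-- WDR. Rows of one class (length `k`), attached to starting points by a function of the place:
if at most `M` of them start in an interval of length `k`, few of them start at a point where the
information is at least `t`. -/
def WDRStmt : Prop :=
  ∀ (Ω O σ ι : Type) [Fintype Ω] (p : Ω → ℝ) (o : Ω → O) (V : ℕ → Ω → σ) (R : Finset ι)
    (s : Ω → ι → ℕ) (c : Ω → ι → Prop) (n k : ℕ) (M t : ℝ), IsLaw p → 0 < k → 0 ≤ M → 0 < t →
    (∀ i, Det p (V (i + 1)) (V i)) →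
    (∀ ω, 0 < p ω → ∀ r ∈ R, c ω r → s ω r < n) →
    (∀ ω, 0 < p ω → ∀ i, ((R.filter fun r => c ω r ∧ i ≤ s ω r ∧ s ω r < i + k).card : ℝ) ≤ M) →
    t * Ex p (fun ω => ((R.filter fun r => c ω r ∧ t ≤ ik p o V (s ω r) k ω).card : ℝ)) ≤
      M * CH p o (V 0)

open Classical in
/-- WDS. All classes together: class `j` has length `k j`, block `o j`, weight `a j`. -/
def WDSStmt : Prop :=
  ∀ (Ω σ ι : Type) (O : ℕ → Type) [Fintype Ω] (p : Ω → ℝ) (o : ∀ j, Ω → O j) (V : ℕ → Ω → σ)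
    (R : Finset ι) (s : Ω → ι → ℕ) (c : Ω → ι → ℕ) (n nc : ℕ) (k : ℕ → ℕ) (a : ℕ → ℝ)
    (M h ε : ℝ), IsLaw p → (∀ j < nc, 0 < k j) → (∀ j < nc, 0 < a j) → 0 ≤ M → 0 ≤ h → 0 < ε →
    (∀ i, Det p (V (i + 1)) (V i)) →
    (∀ ω, 0 < p ω → ∀ r ∈ R, c ω r < nc → s ω r < n) →
    (∀ ω, 0 < p ω → ∀ j < nc, ∀ i,
      ((R.filter fun r => c ω r = j ∧ i ≤ s ω r ∧ s ω r < i + k j).card : ℝ) ≤ M * k j) →
    (∀ j < nc, CH p (o j) (V 0) ≤ h * k j) →
    Ex p (fun ω => ((R.filter fun r => ∃ j < nc, c ω r = j ∧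
      ε * a j * k j ≤ ik p (o j) V (s ω r) (k j) ω).card : ℝ)) ≤
        M * h / ε * ∑ j ∈ range nc, k j / a j

/-- WDW. Weights of the classes of lengths `≤ (1 + ε) ^ j`, `j < n`. -/
def WDWStmt : Prop :=
  ∀ ε : ℝ, 0 < ε → ∃ C : ℝ, 1 ≤ C ∧ ∀ n : ℕ, ∃ a : ℕ → ℝ, (∀ j < n, 0 < a j) ∧
    (∀ j < n, 1 ≤ C * (j + 1) ^ 2 * a j) ∧ ∑ j ∈ range n, a j ≤ 1 ∧
    ∑ j ∈ range n, (1 + ε) ^ j / a j ≤ C * (1 + ε) ^ n

/-- WDP. Pigeonhole with weights. -/
def WDPStmt : Prop :=
  ∀ (Ω : Type) [Fintype Ω] (p : Ω → ℝ) (E : Set Ω) (c : Ω → ℕ) (n : ℕ) (a : ℕ → ℝ),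
    (∀ ω, 0 ≤ p ω) → (∀ ω ∈ E, c ω < n) → ∑ j ∈ range n, a j ≤ 1 → 0 < Pr p E →
    ∃ j < n, a j * Pr p E ≤ Pr p {ω | ω ∈ E ∧ c ω = j}

open Classical in
/-- WDM. Maximal inequality for deficits `τ`, with place dependent intervals. -/
def WDMStmt : Prop :=
  ∀ (Ω σ ι : Type) [Fintype Ω] (p : Ω → ℝ) (V : ℕ → Ω → σ) (τ : ℕ → Ω → ℝ) (R : Finset ι)
    (s l : Ω → ι → ℕ) (N : ℕ) (M ε : ℝ), IsLaw p → 0 ≤ M → 0 < ε → ε ≤ 1 →
    (∀ i, Det p (V (i + 1)) (V i)) → (∀ i ω, 0 < p ω → 0 ≤ τ i ω ∧ τ i ω ≤ 1) →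
    (∀ ω, 0 < p ω → ∀ i k, ((R.filter fun r => i ≤ s ω r ∧ s ω r < i + k ∧ l ω r ≤ k).card : ℝ) ≤
      M * k) →
    Ex p (fun ω => ((R.filter fun r => 0 < l ω r ∧ s ω r + l ω r ≤ N ∧
      ε * l ω r ≤ Ex (cond p (V (s ω r)) (V (s ω r) ω))
        (fun v => ∑ j ∈ Ico (s ω r) (s ω r + l ω r), τ j v)).card : ℝ)) ≤
      6 * M / ε ^ 2 * Ex p (fun ω => ∑ j ∈ range N, τ j ω)

namespace WDC

variable {Ω O σ : Type} [Fintype Ω]

/-- The tower property for functions of the value of `V`. -/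
lemma tower2 {p : Ω → ℝ} (hp : ∀ ω, 0 ≤ p ω) (V : Ω → σ) (g : Ω → Ω → ℝ)
    (hg : ∀ ω ω', 0 < p ω → 0 < p ω' → V ω = V ω' → g ω = g ω') :
    Ex p (fun ω => g ω ω) = Ex p (fun ω => Ex (cond p V (V ω)) (g ω)) := by
  classical
  unfold Ex
  have h1 : ∀ ω, p ω * ∑ v, cond p V (V ω) v * g ω v =
      ∑ v, if V v = V ω then p ω * p v / law p V (V v) * g v v else 0 := by
    intro ω
    rcases (hp ω).eq_or_lt with h0 | h0
    · rw [← h0]
      simp
    · rw [Finset.mul_sum]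
      refine Finset.sum_congr rfl fun v _ => ?_
      unfold Pool.Agent.H49.Ent.cond
      by_cases hv : V v = V ω
      · rw [if_pos hv, if_pos hv]
        rcases (hp v).eq_or_lt with h2 | h2
        · rw [← h2]
          simp
        · rw [hg ω v h0 h2 hv.symm, hv]
          ring
      · rw [if_neg hv, if_neg hv]
        simp
  simp_rw [h1]
  rw [Finset.sum_comm]
  refine Finset.sum_congr rfl fun v _ => ?_
  rcases (hp v).eq_or_lt with h2 | h2
  · rw [← h2]
    simp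
  · have hl := law_pos hp V h2
    have h3 : (∑ ω, if V v = V ω then p ω * p v / law p V (V v) * g v v else 0) =
        (∑ ω, if V ω = V v then p ω else 0) * (p v / law p V (V v) * g v v) := by
      rw [Finset.sum_mul]
      refine Finset.sum_congr rfl fun ω _ => ?_
      by_cases hv : V ω = V v
      · rw [if_pos hv, if_pos hv.symm]
        ring
      · rw [if_neg hv, if_neg (fun h => hv h.symm)]
        simp
    rw [h3]
    have h4 : (∑ ω, if V ω = V v then p ω else 0) = law p V (V v) := rfl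
    rw [h4]
    field_simp

/-- The tower property, adapted factor. -/
lemma tower' {p : Ω → ℝ} (hp : ∀ ω, 0 ≤ p ω) (V : Ω → σ) (f g : Ω → ℝ)
    (hf : ∀ ω ω', 0 < p ω → 0 < p ω' → V ω = V ω' → f ω = f ω') :
    Ex p (fun ω => f ω * g ω) = Ex p (fun ω => f ω * Ex (cond p V (V ω)) g) := by
  rw [tower2 hp V (fun ω v => f ω * g v) (fun ω ω' a b h => by rw [hf ω ω' a b h])]
  congr 1
  funext ω
  exact Ex_smul _ _ _

lemma adp_of_det {p : Ω → ℝ} {V : ℕ → Ω → σ} (hV : ∀ i, Det p (V (i + 1)) (V i)) {i j : ℕ}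
    (hij : i ≤ j) {ω ω' : Ω} (h : 0 < p ω) (h' : 0 < p ω') (he : V j ω = V j ω') :
    V i ω = V i ω' := by
  obtain ⟨k, rfl⟩ := Nat.exists_eq_add_of_le hij
  exact HBL.det_add hV i k ω ω' h h' he

/-- The conditional entropy of the block is a mean of entropies. -/
lemma ex_h {p : Ω → ℝ} (hp : ∀ ω, 0 ≤ p ω) (o : Ω → O) {V : ℕ → Ω → σ}
    (hV : ∀ i, Det p (V (i + 1)) (V i)) (i k : ℕ) (ω : Ω) :
    Ex (cond p (V i) (V i ω)) (fun v => H (cond p (V (i + k)) (V (i + k) v)) o) =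
      CH (cond p (V i) (V i ω)) o (V (i + k)) := by
  have hq := cond_nonneg hp (V i) (V i ω)
  rw [← CDF.Ex_H hq o (V (i + k))]
  unfold Ex
  refine Finset.sum_congr rfl fun v _ => ?_
  rcases (hq v).eq_or_lt with h0 | h0
  · rw [← h0, zero_mul, zero_mul]
  · obtain ⟨hv, hvw⟩ := (cond_pos_iff hp _ _ v).1 h0
    have h5 := HBL.cond_cond hp (HBL.det_add hV i k) hv hvw
    dsimp only
    rw [h5]

lemma CH_le_H {q : Ω → ℝ} (hq : ∀ ω, 0 ≤ q ω) (h1 : ∑ ω, q ω = 1) (o : Ω → O) (W : Ω → σ) :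
    CH q o W ≤ H q o := by
  have := CH_mono_cond hq (X := o) (W' := W) (W := fun _ => ()) (fun _ _ _ _ _ => rfl)
  refine this.trans (le_of_eq ?_)
  unfold CH
  rw [H_const h1, sub_zero]
  refine H_congr hq ?_ ?_
  · intro ω ω' _ _ h
    simp only [Prod.mk.injEq, and_true] at h ⊢
    exact h
  · intro ω ω' _ _ h
    simp only [Prod.mk.injEq, and_true] at h ⊢
    exact h

lemma ik_nonneg {p : Ω → ℝ} (hp : ∀ ω, 0 ≤ p ω) (o : Ω → O) (V : ℕ → Ω → σ) (i k : ℕ) {ω : Ω}
    (hω : 0 < p ω) : 0 ≤ ik p o V i k ω := by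
  unfold ik
  have := CH_le_H (cond_nonneg hp (V i) (V i ω)) (sum_cond p (V i) (law_pos hp (V i) hω).ne') o
    (V (i + k))
  linarith

/-- The information bounds the information with every record which is determined. -/
lemma ik_ge {p : Ω → ℝ} (hp : ∀ ω, 0 ≤ p ω) (o : Ω → O) (V : ℕ → Ω → σ) (i k : ℕ) {ξ : Type}
    {X : Ω → ξ} (hX : Det p (V (i + k)) X) (ω : Ω) :
    H (cond p (V i) (V i ω)) o - CH (cond p (V i) (V i ω)) o X ≤ ik p o V i k ω := by
  unfold ik
  have h1 : CH (cond p (V i) (V i ω)) o (V (i + k)) ≤ CH (cond p (V i) (V i ω)) o X := by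
    refine CH_mono_cond (cond_nonneg hp _ _) ?_
    intro a b ha hb hab
    exact hX a b ((cond_pos_iff hp _ _ a).1 ha).1 ((cond_pos_iff hp _ _ b).1 hb).1 hab
  linarith

lemma Ex_sum {ι : Type} (p : Ω → ℝ) (s : Finset ι) (f : ι → Ω → ℝ) :
    Ex p (fun ω => ∑ i ∈ s, f i ω) = ∑ i ∈ s, Ex p (f i) := by
  unfold Ex
  rw [Finset.sum_comm]
  refine Finset.sum_congr rfl fun ω _ => ?_
  rw [Finset.mul_sum]

/-- One step of the supermartingale with a bounded adapted factor. -/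
lemma sup_step {p : Ω → ℝ} (hp : ∀ ω, 0 ≤ p ω) (V : Ω → σ) (θ h h' : Ω → ℝ) {M : ℝ}
    (hθ : ∀ ω ω', 0 < p ω → 0 < p ω' → V ω = V ω' → θ ω = θ ω')
    (hM : ∀ ω, 0 < p ω → θ ω ≤ M)
    (hs : ∀ ω, 0 < p ω → Ex (cond p V (V ω)) h' ≤ h ω) :
    Ex p (fun ω => θ ω * (h ω - h' ω)) ≤ M * (Ex p h - Ex p h') := by
  have e1 : Ex p (fun ω => θ ω * (h ω - h' ω)) =
      Ex p (fun ω => θ ω * (h ω - Ex (cond p V (V ω)) h')) := by
    have a1 : (fun ω => θ ω * (h ω - h' ω)) = fun ω => θ ω * h ω - θ ω * h' ω := by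
      funext ω
      ring
    have a2 : (fun ω => θ ω * (h ω - Ex (cond p V (V ω)) h')) =
        fun ω => θ ω * h ω - θ ω * Ex (cond p V (V ω)) h' := by
      funext ω
      ring
    rw [a1, a2, Ex_sub, Ex_sub, tower' hp V θ h' hθ]
  have e2 : Ex p h' = Ex p (fun ω => Ex (cond p V (V ω)) h') := by
    have := tower' hp V (fun _ => 1) h' (fun _ _ _ _ _ => rfl)
    simpa using this
  rw [e1, e2, ← Ex_sub, ← Ex_smul]
  refine Ex_mono hp fun ω hω => ?_
  exact mul_le_mul_of_nonneg_right (hM ω hω) (by linarith [hs ω hω])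

lemma tele (h : ℕ → ℝ) (i k n : ℕ) (hin : i < n) :
    h i - h (i + k) = ∑ j ∈ range (n + k), if i ≤ j ∧ j < i + k then h j - h (j + 1) else 0 := by
  rw [← Finset.sum_filter]
  have e : (range (n + k)).filter (fun j => i ≤ j ∧ j < i + k) = Ico i (i + k) := by
    ext j
    simp only [mem_filter, mem_range, mem_Ico]
    omega
  rw [e, Finset.sum_Ico_eq_sum_range, Nat.add_sub_cancel_left]
  induction k with
  | zero => simp
  | succ k ih =>
    rw [Finset.sum_range_succ, ← ih]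
    · rw [← add_assoc]
      ring
    · ext j
      simp only [mem_filter, mem_range, mem_Ico]
      omega

end WDC

open WDC in
open Classical in
/-- **Row WDB.** -/
theorem wdb_thm : WDBStmt := by
  intro Ω O σ _ p o V A n k M hp hV hA hM
  set h : ℕ → Ω → ℝ := fun i ω => H (cond p (V i) (V i ω)) o with hh
  set θ : ℕ → Ω → ℝ := fun j ω =>
    (((range n).filter fun i => i ≤ j ∧ j < i + k ∧ A i ω).card : ℝ) with hθ
  have hAi : ∀ i j ω ω', i ≤ j → 0 < p ω → 0 < p ω' → V j ω = V j ω' → (A i ω ↔ A i ω') := by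
    intro i j ω ω' hij a a' he
    have h1 := adp_of_det hV hij a a' he
    exact ⟨hA i ω ω' a a' h1, hA i ω' ω a' a h1.symm⟩
  -- the information as a mean of differences
  have e1 : ∀ i, Ex p (fun ω => if A i ω then ik p o V i k ω else 0) =
      Ex p (fun ω => (if A i ω then 1 else 0) * (h i ω - h (i + k) ω)) := by
    intro i
    have a1 : (fun ω => (if A i ω then (1 : ℝ) else 0) * (h i ω - h (i + k) ω)) =
        fun ω => (if A i ω then (1 : ℝ) else 0) * h i ω -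
          (if A i ω then (1 : ℝ) else 0) * h (i + k) ω := by
      funext ω
      ring
    rw [a1, Ex_sub, tower' hp.nonneg (V i) (fun ω => if A i ω then (1 : ℝ) else 0) (h (i + k))
      (fun ω ω' a a' he => by simp only [hAi i i ω ω' le_rfl a a' he]), ← Ex_sub]
    congr 1
    funext ω
    have a2 := ex_h hp.nonneg o hV i k ω
    rw [show h (i + k) = fun v => H (cond p (V (i + k)) (V (i + k) v)) o from rfl, a2]
    by_cases hAω : A i ω
    · simp only [if_pos hAω, one_mul]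
      rfl
    · simp only [if_neg hAω, zero_mul, sub_zero]
  have e2 : ∑ i ∈ range n, Ex p (fun ω => if A i ω then ik p o V i k ω else 0) =
      ∑ j ∈ range (n + k), Ex p (fun ω => θ j ω * (h j ω - h (j + 1) ω)) := by
    rw [Finset.sum_congr rfl fun i _ => e1 i, ← Ex_sum, ← Ex_sum]
    congr 1
    funext ω
    have a1 : ∀ i ∈ range n, (if A i ω then (1 : ℝ) else 0) * (h i ω - h (i + k) ω) =
        ∑ j ∈ range (n + k), if i ≤ j ∧ j < i + k ∧ A i ω then h j ω - h (j + 1) ω else 0 := by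
      intro i hi
      rw [tele (fun j => h j ω) i k n (mem_range.1 hi), Finset.mul_sum]
      refine Finset.sum_congr rfl fun j _ => ?_
      by_cases hAω : A i ω
      · rw [if_pos hAω, one_mul]
        simp only [hAω, and_true]
      · rw [if_neg hAω, zero_mul]
        simp only [hAω, and_false, if_false]
    rw [Finset.sum_congr rfl a1, Finset.sum_comm]
    refine Finset.sum_congr rfl fun j _ => ?_
    rw [← Finset.sum_filter, Finset.sum_const, nsmul_eq_mul]
  rw [e2]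
  have e3 : ∀ j ∈ range (n + k), Ex p (fun ω => θ j ω * (h j ω - h (j + 1) ω)) ≤
      M * (Ex p (h j) - Ex p (h (j + 1))) := by
    intro j _
    refine sup_step hp.nonneg (V j) (θ j) (h j) (h (j + 1)) ?_ ?_ ?_
    · intro ω ω' a a' he
      simp only [hθ]
      congr 2
      ext i
      simp only [mem_filter, mem_range]
      constructor
      · rintro ⟨b1, b2, b3, b4⟩
        exact ⟨b1, b2, b3, (hAi i j ω ω' b2 a a' he).1 b4⟩
      · rintro ⟨b1, b2, b3, b4⟩
        exact ⟨b1, b2, b3, (hAi i j ω ω' b2 a a' he).2 b4⟩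
    · intro ω hω
      simp only [hθ]
      exact_mod_cast hM ω hω j
    · intro ω hω
      have a2 := ex_h hp.nonneg o hV j 1 ω
      rw [show h (j + 1) = fun v => H (cond p (V (j + 1)) (V (j + 1) v)) o from rfl, a2]
      exact CH_le_H (cond_nonneg hp.nonneg _ _)
        (sum_cond p (V j) (law_pos hp.nonneg (V j) hω).ne') o _
  refine (Finset.sum_le_sum e3).trans ?_
  rw [← Finset.mul_sum, Finset.sum_range_sub']
  have e4 : Ex p (h 0) = CH p o (V 0) := CDF.Ex_H hp.nonneg o (V 0)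
  have e5 : 0 ≤ Ex p (h (n + k)) := Ex_nonneg hp.nonneg fun ω hω =>
    H_nonneg (cond_nonneg hp.nonneg _ _) (sum_cond p _ (law_pos hp.nonneg _ hω).ne') _
  rw [e4]
  refine mul_le_mul_of_nonneg_left (by linarith) (Nat.cast_nonneg M)

end Pool.KX
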