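import Pool.Agent.H97.K2.WDC

/-!
# Budgets along the path of a place: greedy selection, all classes, weights
-/

set_option autoImplicit false

namespace Pool.KX

open Finset Real
open Pool.Agent.H49.Ent Pool.Agent.H32.Dense Pool.STK Pool.KAF Pool.KAL

namespace WDC

open Classical in
/-- The end of the part covered by the greedy selection before `i`. -/
noncomputable def nx (B : ℕ → Prop) (k : ℕ) : ℕ → ℕ
  | 0 => 0
  | i + 1 => if B i ∧ nx B k i ≤ i then i + k else nx B k i

/-- Greedy selection. -/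
def gs (B : ℕ → Prop) (k i : ℕ) : Prop := B i ∧ nx B k i ≤ i

lemma nx_succ_pos {B : ℕ → Prop} {k i : ℕ} (h : gs B k i) : nx B k (i + 1) = i + k := by
  unfold nx
  exact if_pos h

lemma nx_succ_neg {B : ℕ → Prop} {k i : ℕ} (h : ¬ gs B k i) : nx B k (i + 1) = nx B k i := by
  conv_lhs => unfold nx
  exact if_neg h

lemma nx_mono {B : ℕ → Prop} {k : ℕ} : Monotone (nx B k) := by
  refine monotone_nat_of_le_succ fun i => ?_
  by_cases h : gs B k i
  · rw [nx_succ_pos h]
    exact h.2.trans (Nat.le_add_right i k)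
  · rw [nx_succ_neg h]

lemma nx_cases (B : ℕ → Prop) (k i : ℕ) : nx B k i = 0 ∨ ∃ j < i, gs B k j ∧ nx B k i = j + k := by
  induction i with
  | zero => exact Or.inl rfl
  | succ i ih =>
    by_cases h : gs B k i
    · exact Or.inr ⟨i, Nat.lt_succ_self i, h, nx_succ_pos h⟩
    · rw [nx_succ_neg h]
      rcases ih with h1 | ⟨j, h1, h2, h3⟩
      · exact Or.inl h1
      · exact Or.inr ⟨j, h1.trans (Nat.lt_succ_self i), h2, h3⟩

lemma gs_cover {B : ℕ → Prop} {k i : ℕ} (hk : 0 < k) (h : B i) :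
    ∃ j, j ≤ i ∧ i < j + k ∧ gs B k j := by
  by_cases h1 : nx B k i ≤ i
  · exact ⟨i, le_rfl, by omega, h, h1⟩
  · rcases nx_cases B k i with h2 | ⟨j, h2, h3, h4⟩
    · omega
    · exact ⟨j, h2.le, by omega, h3⟩

lemma gs_sep {B : ℕ → Prop} {k i j : ℕ} (hij : i < j) (hi : gs B k i) (hj : gs B k j) :
    i + k ≤ j := by
  rw [← nx_succ_pos hi]
  exact (nx_mono hij).trans hj.2

lemma nx_congr {B B' : ℕ → Prop} {k : ℕ} : ∀ {i : ℕ}, (∀ j < i, B j ↔ B' j) →
    nx B k i = nx B' k i := by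
  intro i
  induction i with
  | zero => exact fun _ => rfl
  | succ i ih =>
    intro h
    have h1 := ih fun j hj => h j (hj.trans (Nat.lt_succ_self i))
    have h2 := h i (Nat.lt_succ_self i)
    by_cases hb : gs B k i
    · have hb' : gs B' k i := ⟨h2.1 hb.1, by rw [← h1]; exact hb.2⟩
      rw [nx_succ_pos hb, nx_succ_pos hb']
    · have hb' : ¬ gs B' k i := fun hc => hb ⟨h2.2 hc.1, by rw [h1]; exact hc.2⟩
      rw [nx_succ_neg hb, nx_succ_neg hb', h1]

lemma gs_congr {B B' : ℕ → Prop} {k i : ℕ} (h : ∀ j ≤ i, B j ↔ B' j) : gs B k i ↔ gs B' k i := by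
  unfold gs
  rw [h i le_rfl, nx_congr fun j hj => h j hj.le]

end WDC

open WDC in
open Classical in
/-- **Row WDR.** -/
theorem wdr_thm : WDRStmt := by
  intro Ω O σ ι _ p o V R s c n k M t hp hk hM ht hV hs hc
  set B : Ω → ℕ → Prop := fun ω i => t ≤ ik p o V i k ω with hB
  have hBi : ∀ i j ω ω', i ≤ j → 0 < p ω → 0 < p ω' → V j ω = V j ω' → (B ω i ↔ B ω' i) := by
    intro i j ω ω' hij a a' he
    have h1 := adp_of_det hV hij a a' he
    simp only [hB, ik]
    rw [h1]
  have hA : ∀ i, Adp p (V i) (fun ω => gs (B ω) k i) := by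
    intro i ω ω' a a' he h
    exact (gs_congr fun j hj => hBi j i ω ω' hj a a' he).1 h
  have h1 := wdb_thm Ω O σ p o V (fun i ω => gs (B ω) k i) n k 1 hp hV hA (by
    intro ω _ j
    refine Finset.card_le_one.2 ?_
    intro i hi i' hi'
    simp only [mem_filter, mem_range] at hi hi'
    rcases lt_trichotomy i i' with h | h | h
    · have := gs_sep h hi.2.2.2 hi'.2.2.2
      omega
    · exact h
    · have := gs_sep h hi'.2.2.2 hi.2.2.2
      omega)
  rw [Nat.cast_one, one_mul] at h1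
  -- the rows are covered by the selected intervals
  have h2 : ∀ ω, 0 < p ω →
      ((R.filter fun r => c ω r ∧ t ≤ ik p o V (s ω r) k ω).card : ℝ) ≤
        ∑ i ∈ range n, if gs (B ω) k i then M else 0 := by
    intro ω hω
    have h3 : (R.filter fun r => c ω r ∧ t ≤ ik p o V (s ω r) k ω) ⊆
        ((range n).filter fun i => gs (B ω) k i).biUnion
          fun i => R.filter fun r => c ω r ∧ i ≤ s ω r ∧ s ω r < i + k := by
      intro r hr
      rw [mem_filter] at hr
      obtain ⟨hr1, hr2, hr3⟩ := hr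
      obtain ⟨j, hj1, hj2, hj3⟩ := gs_cover (B := B ω) (k := k) (i := s ω r) hk hr3
      rw [mem_biUnion]
      refine ⟨j, ?_, ?_⟩
      · rw [mem_filter, mem_range]
        exact ⟨lt_of_le_of_lt hj1 (hs ω hω r hr1 hr2), hj3⟩
      · rw [mem_filter]
        exact ⟨hr1, hr2, hj1, hj2⟩
    have h4 := (Finset.card_le_card h3).trans Finset.card_biUnion_le
    have h5 : ((R.filter fun r => c ω r ∧ t ≤ ik p o V (s ω r) k ω).card : ℝ) ≤
        ∑ i ∈ (range n).filter (fun i => gs (B ω) k i),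
          ((R.filter fun r => c ω r ∧ i ≤ s ω r ∧ s ω r < i + k).card : ℝ) := by
      exact_mod_cast h4
    refine h5.trans ?_
    rw [Finset.sum_filter]
    refine Finset.sum_le_sum fun i _ => ?_
    split_ifs
    · exact hc ω hω i
    · exact le_rfl
  have h6 : t * Ex p (fun ω =>
      ((R.filter fun r => c ω r ∧ t ≤ ik p o V (s ω r) k ω).card : ℝ)) ≤
      M * ∑ i ∈ range n, Ex p (fun ω => if gs (B ω) k i then ik p o V i k ω else 0) := by
    rw [← Ex_smul, ← Ex_sum, ← Ex_smul]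
    refine Ex_mono hp.nonneg fun ω hω => ?_
    have h7 := mul_le_mul_of_nonneg_left (h2 ω hω) ht.le
    refine h7.trans ?_
    rw [Finset.mul_sum, Finset.mul_sum]
    refine Finset.sum_le_sum fun i _ => ?_
    by_cases h : gs (B ω) k i
    · rw [if_pos h, if_pos h, mul_comm]
      exact mul_le_mul_of_nonneg_left h.1 hM
    · rw [if_neg h, if_neg h]
      simp
  exact h6.trans (mul_le_mul_of_nonneg_left h1 hM)

open WDC in
open Classical in
/-- **Row WDS.** -/
theorem wds_thm : WDSStmt := by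
  intro Ω σ ι O _ p o V R s c n nc k a M h ε hp hk ha hM hh hε hV hs hc hCH
  have h1 : ∀ j ∈ range nc, Ex p (fun ω => ((R.filter fun r => c ω r = j ∧
      ε * a j * k j ≤ ik p (o j) V (s ω r) (k j) ω).card : ℝ)) ≤ M * h / ε * (k j / a j) := by
    intro j hj
    rw [mem_range] at hj
    have hkj : (0 : ℝ) < k j := by exact_mod_cast hk j hj
    have haj := ha j hj
    have ht : 0 < ε * a j * k j := by positivity
    have h2 := wdr_thm Ω (O j) σ ι p (o j) V R s (fun ω r => c ω r = j) n (k j) (M * k j)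
      (ε * a j * k j) hp (hk j hj) (by positivity) ht hV
      (fun ω hω r hr hcr => hs ω hω r hr (by rw [hcr]; exact hj))
      (fun ω hω i => by
        refine le_trans (le_of_eq ?_) (hc ω hω j hj i)
        congr 2
        ext r
        simp only [mem_filter])
    have h3 : M * k j * CH p (o j) (V 0) ≤ M * k j * (h * k j) :=
      mul_le_mul_of_nonneg_left (hCH j hj) (by positivity)
    have h4 := h2.trans h3
    rw [← le_div_iff₀' ht] at h4
    have h6 : M * k j * (h * k j) / (ε * a j * k j) = M * h / ε * (k j / a j) := by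
      field_simp
    rw [h6] at h4
    refine le_trans (le_of_eq ?_) h4
    congr 1
    funext ω
    congr 2
    ext r
    simp only [mem_filter]
  have h2 : Ex p (fun ω => ((R.filter fun r => ∃ j < nc, c ω r = j ∧
      ε * a j * k j ≤ ik p (o j) V (s ω r) (k j) ω).card : ℝ)) ≤
      ∑ j ∈ range nc, Ex p (fun ω => ((R.filter fun r => c ω r = j ∧
        ε * a j * k j ≤ ik p (o j) V (s ω r) (k j) ω).card : ℝ)) := by
    rw [← Ex_sum]
    refine Ex_mono hp.nonneg fun ω _ => ?_
    have h3 : (R.filter fun r => ∃ j < nc, c ω r = j ∧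
        ε * a j * k j ≤ ik p (o j) V (s ω r) (k j) ω) ⊆
        (range nc).biUnion fun j => R.filter fun r => c ω r = j ∧
          ε * a j * k j ≤ ik p (o j) V (s ω r) (k j) ω := by
      intro r hr
      rw [mem_filter] at hr
      obtain ⟨hr1, j, hj, hr2⟩ := hr
      rw [mem_biUnion]
      refine ⟨j, mem_range.2 hj, ?_⟩
      rw [mem_filter]
      exact ⟨hr1, hr2⟩
    have h4 := (Finset.card_le_card h3).trans Finset.card_biUnion_le
    exact_mod_cast h4
  refine h2.trans ((Finset.sum_le_sum h1).trans (le_of_eq ?_))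
  rw [Finset.mul_sum]

namespace WDC

lemma sum_inv_sq (n : ℕ) : ∑ j ∈ range n, 1 / ((j : ℝ) + 1) ^ 2 ≤ 2 := by
  have h : ∀ n : ℕ, 1 ≤ n → ∑ j ∈ range n, 1 / ((j : ℝ) + 1) ^ 2 ≤ 2 - 1 / (n : ℝ) := by
    intro n hn
    induction n, hn using Nat.le_induction with
    | base => norm_num
    | succ n hn ih =>
      rw [Finset.sum_range_succ]
      have hn1 : (0 : ℝ) < n := by exact_mod_cast hn
      have h1 : 1 / ((n : ℝ) + 1) ^ 2 ≤ 1 / (n : ℝ) - 1 / ((n : ℝ) + 1) := by
        rw [div_sub_div _ _ hn1.ne' (by positivity), div_le_div_iff₀ (by positivity)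
          (by positivity)]
        nlinarith
      push_cast
      linarith
  rcases Nat.eq_zero_or_pos n with h0 | h0
  · subst h0
    simp
  · have h1 := h n h0
    have h2 : 0 ≤ 1 / (n : ℝ) := by positivity
    linarith

end WDC

open WDC in
/-- **Row WDW.** -/
theorem wdw_thm : WDWStmt := by
  intro ε hε
  set r : ℝ := 1 / (1 + ε) with hr
  have hr0 : 0 < r := by positivity
  have hr1 : r < 1 := by
    rw [hr, div_lt_one (by linarith)]
    linarith
  have hsum : Summable fun i : ℕ => ((i : ℝ) + 1) ^ 2 * r ^ (i + 1) := by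
    have h1 : Summable fun i : ℕ => (i : ℝ) ^ 2 * r ^ i :=
      summable_pow_mul_geometric_of_norm_lt_one 2 (by
        rw [Real.norm_eq_abs, abs_of_pos hr0]
        exact hr1)
    have h2 := (summable_nat_add_iff 1).2 h1
    refine h2.congr fun i => ?_
    push_cast
    rfl
  set S : ℝ := ∑' i : ℕ, ((i : ℝ) + 1) ^ 2 * r ^ (i + 1) with hS
  have hS0 : 0 ≤ S := tsum_nonneg fun i => by positivity
  refine ⟨4 * S + 4, by linarith, fun n => ?_⟩
  set a : ℕ → ℝ := fun j => 1 / 4 * (1 / ((j : ℝ) + 1) ^ 2 + 1 / ((n - j : ℕ) : ℝ) ^ 2) with ha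
  have hnj : ∀ j < n, (1 : ℝ) ≤ ((n - j : ℕ) : ℝ) := by
    intro j hj
    have : 1 ≤ n - j := by omega
    exact_mod_cast this
  have ha0 : ∀ j < n, 0 < a j := by
    intro j hj
    have := hnj j hj
    simp only [ha]
    positivity
  refine ⟨a, ha0, ?_, ?_, ?_⟩
  · intro j hj
    have h1 : 1 / 4 * (1 / ((j : ℝ) + 1) ^ 2) ≤ a j := by
      simp only [ha]
      have : 0 ≤ 1 / ((n - j : ℕ) : ℝ) ^ 2 := by positivity
      linarith
    have h2 : (0 : ℝ) < ((j : ℝ) + 1) ^ 2 := by positivity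
    calc (1 : ℝ) = 4 * ((j : ℝ) + 1) ^ 2 * (1 / 4 * (1 / ((j : ℝ) + 1) ^ 2)) := by
          field_simp
      _ ≤ 4 * ((j : ℝ) + 1) ^ 2 * a j := mul_le_mul_of_nonneg_left h1 (by positivity)
      _ ≤ (4 * S + 4) * ((j : ℝ) + 1) ^ 2 * a j := by
          refine mul_le_mul_of_nonneg_right ?_ (ha0 j hj).le
          exact mul_le_mul_of_nonneg_right (by linarith) h2.le
  · have h1 : ∑ j ∈ range n, a j = 1 / 4 * (∑ j ∈ range n, 1 / ((j : ℝ) + 1) ^ 2 +
        ∑ j ∈ range n, 1 / ((n - j : ℕ) : ℝ) ^ 2) := by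
      rw [← Finset.sum_add_distrib, Finset.mul_sum]
    have h2 : ∑ j ∈ range n, 1 / ((n - j : ℕ) : ℝ) ^ 2 = ∑ j ∈ range n, 1 / ((j : ℝ) + 1) ^ 2 := by
      rw [← Finset.sum_range_reflect]
      refine Finset.sum_congr rfl fun j hj => ?_
      have hj' := mem_range.1 hj
      have e : n - (n - 1 - j) = j + 1 := by omega
      rw [e]
      push_cast
      rfl
    rw [h1, h2]
    have := sum_inv_sq n
    linarith
  · have h1 : ∀ j ∈ range n, (1 + ε) ^ j / a j ≤
        4 * (1 + ε) ^ n * (((n - 1 - j : ℕ) : ℝ) + 1) ^ 2 * r ^ ((n - 1 - j) + 1) := by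
      intro j hj
      have hj' := mem_range.1 hj
      have e : ((n - 1 - j : ℕ) : ℝ) + 1 = ((n - j : ℕ) : ℝ) := by
        have : n - j = n - 1 - j + 1 := by omega
        rw [this]
        push_cast
        rfl
      have e2 : (1 + ε) ^ j = (1 + ε) ^ n * r ^ ((n - 1 - j) + 1) := by
        have h3 : n = j + (n - 1 - j + 1) := by omega
        conv_rhs => rw [h3]
        rw [hr, pow_add, one_div, inv_pow]
        have h4 : n - 1 - (j + (n - 1 - j + 1) - 1 - j) = n - 1 - (n - 1 - j) := by omega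
        have h5 : j + (n - 1 - j + 1) - 1 - j + 1 = n - 1 - j + 1 := by omega
        rw [h5]
        field_simp
      have hx := hnj j hj'
      have h2 : 1 / 4 * (1 / ((n - j : ℕ) : ℝ) ^ 2) ≤ a j := by
        simp only [ha]
        have : 0 ≤ 1 / ((j : ℝ) + 1) ^ 2 := by positivity
        linarith
      rw [e, div_le_iff₀ (ha0 j hj')]
      rw [e2]
      have hpos : 0 ≤ 4 * (1 + ε) ^ n * ((n - j : ℕ) : ℝ) ^ 2 * r ^ (n - 1 - j + 1) := by
        positivity
      refine le_trans (le_of_eq ?_) (mul_le_mul_of_nonneg_left h2 hpos)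
      field_simp
    refine (Finset.sum_le_sum h1).trans ?_
    rw [Finset.sum_range_reflect (fun i : ℕ =>
      4 * (1 + ε) ^ n * ((i : ℝ) + 1) ^ 2 * r ^ (i + 1)) n]
    have h2 : ∑ i ∈ range n, 4 * (1 + ε) ^ n * ((i : ℝ) + 1) ^ 2 * r ^ (i + 1) =
        4 * (1 + ε) ^ n * ∑ i ∈ range n, ((i : ℝ) + 1) ^ 2 * r ^ (i + 1) := by
      rw [Finset.mul_sum]
      exact Finset.sum_congr rfl fun i _ => by ring
    rw [h2]
    have h3 : ∑ i ∈ range n, ((i : ℝ) + 1) ^ 2 * r ^ (i + 1) ≤ S :=
      hsum.sum_le_tsum _ fun i _ => by positivity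
    have h4 : (0 : ℝ) < (1 + ε) ^ n := by positivity
    nlinarith

/-- **Row WDP.** -/
theorem wdp_thm : WDPStmt := by
  intro Ω _ p E c n a hp hE ha hpos
  classical
  by_contra hcon
  push Not at hcon
  have h1 : Pr p E = ∑ j ∈ range n, Pr p {ω | ω ∈ E ∧ c ω = j} := by
    simp only [CDF.Pr_eq]
    rw [Finset.sum_comm]
    refine Finset.sum_congr rfl fun ω _ => ?_
    by_cases hω : ω ∈ E
    · rw [if_pos hω, Finset.sum_eq_single (c ω)]
      · rw [if_pos (show ω ∈ {ω' | ω' ∈ E ∧ c ω' = c ω} from ⟨hω, rfl⟩)]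
      · intro j _ hj
        rw [if_neg]
        rintro ⟨-, h⟩
        exact hj h.symm
      · intro h
        exact absurd (mem_range.2 (hE ω hω)) h
    · rw [if_neg hω]
      symm
      refine Finset.sum_eq_zero fun j _ => ?_
      rw [if_neg]
      rintro ⟨h, -⟩
      exact hω h
  rcases Nat.eq_zero_or_pos n with h0 | h0
  · subst h0
    rw [h1] at hpos
    simp at hpos
  · have h2 : ∑ j ∈ range n, Pr p {ω | ω ∈ E ∧ c ω = j} < ∑ j ∈ range n, a j * Pr p E :=
      Finset.sum_lt_sum_of_nonempty ⟨0, mem_range.2 h0⟩ fun j hj => hcon j (mem_range.1 hj)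
    rw [← h1, ← Finset.sum_mul] at h2
    have h3 : (∑ j ∈ range n, a j) * Pr p E ≤ 1 * Pr p E :=
      mul_le_mul_of_nonneg_right ha hpos.le
    linarith

end Pool.KX
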