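import Pool.Agent.H97.K2.WDC2

/-!
# Row WDM: maximal inequality for deficits, place dependent intervals
-/

set_option autoImplicit false

namespace Pool.KX

open Finset Real
open Pool.Agent.H49.Ent Pool.Agent.H32.Dense Pool.STK Pool.KAF Pool.KAL

namespace WDM

open Classical in
/-- The largest length with a large mass. -/
noncomputable def mx (d : ℕ → ℕ → ℝ) (ε : ℝ) (N i : ℕ) : ℕ :=
  ((range (N + 1)).filter fun l => 0 < l ∧ i + l ≤ N ∧ ε * l ≤ d i l).sup id

lemma le_mx {d : ℕ → ℕ → ℝ} {ε : ℝ} {N i l : ℕ} (h0 : 0 < l) (h1 : i + l ≤ N)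
    (h2 : ε * l ≤ d i l) : l ≤ mx d ε N i := by
  classical
  unfold mx
  refine Finset.le_sup (f := id) (b := l) ?_
  rw [mem_filter, mem_range]
  exact ⟨by omega, h0, h1, h2⟩

lemma mx_spec {d : ℕ → ℕ → ℝ} {ε : ℝ} {N i : ℕ} (h : 0 < mx d ε N i) :
    i + mx d ε N i ≤ N ∧ ε * mx d ε N i ≤ d i (mx d ε N i) := by
  classical
  have hne : ((range (N + 1)).filter fun l => 0 < l ∧ i + l ≤ N ∧ ε * l ≤ d i l).Nonempty := by
    rw [Finset.nonempty_iff_ne_empty]
    intro h1
    unfold mx at h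
    rw [h1] at h
    simp at h
  obtain ⟨l, hl, he⟩ := Finset.exists_mem_eq_sup _ hne id
  have h2 : mx d ε N i = l := by
    unfold mx
    exact he
  rw [h2]
  exact ⟨(Finset.mem_filter.1 hl).2.2.1, (Finset.mem_filter.1 hl).2.2.2⟩

lemma mx_congr {d d' : ℕ → ℕ → ℝ} {ε : ℝ} {N i : ℕ} (h : ∀ l, d i l = d' i l) :
    mx d ε N i = mx d' ε N i := by
  classical
  unfold mx
  congr 1
  ext l
  simp only [mem_filter, h]

open Classical in
/-- The end of the part covered by the selected intervals before `i`. -/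
noncomputable def rr (m : ℕ → ℕ) (ε : ℝ) : ℕ → ℕ
  | 0 => 0
  | i + 1 => if 0 < m i ∧ ((rr m ε i : ℝ) - i) ≤ ε / 2 * m i then i + m i else rr m ε i

/-- Selected intervals. -/
def sl (m : ℕ → ℕ) (ε : ℝ) (i : ℕ) : Prop := 0 < m i ∧ ((rr m ε i : ℝ) - i) ≤ ε / 2 * m i

lemma rr_pos {m : ℕ → ℕ} {ε : ℝ} {i : ℕ} (h : sl m ε i) : rr m ε (i + 1) = i + m i := by
  unfold rr
  exact if_pos h

lemma rr_neg {m : ℕ → ℕ} {ε : ℝ} {i : ℕ} (h : ¬ sl m ε i) : rr m ε (i + 1) = rr m ε i := by
  conv_lhs => unfold rr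
  exact if_neg h

lemma rr_le {m : ℕ → ℕ} {ε : ℝ} (hε : ε ≤ 1) {i : ℕ} (h : sl m ε i) : rr m ε i ≤ i + m i := by
  have h1 : (0 : ℝ) < m i := by exact_mod_cast h.1
  have h2 := h.2
  have h3 : (rr m ε i : ℝ) ≤ ((i + m i : ℕ) : ℝ) := by
    push_cast
    nlinarith
  exact_mod_cast h3

lemma rr_mono {m : ℕ → ℕ} {ε : ℝ} (hε : ε ≤ 1) : Monotone (rr m ε) := by
  refine monotone_nat_of_le_succ fun i => ?_
  by_cases h : sl m ε i
  · rw [rr_pos h]
    exact rr_le hε h
  · rw [rr_neg h]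

lemma rr_cases (m : ℕ → ℕ) (ε : ℝ) (i : ℕ) :
    rr m ε i = 0 ∨ ∃ j < i, sl m ε j ∧ rr m ε i = j + m j := by
  induction i with
  | zero => exact Or.inl rfl
  | succ i ih =>
    by_cases h : sl m ε i
    · exact Or.inr ⟨i, Nat.lt_succ_self i, h, rr_pos h⟩
    · rw [rr_neg h]
      rcases ih with h1 | ⟨j, h1, h2, h3⟩
      · exact Or.inl h1
      · exact Or.inr ⟨j, h1.trans (Nat.lt_succ_self i), h2, h3⟩

lemma rr_congr {m m' : ℕ → ℕ} {ε : ℝ} : ∀ {i : ℕ}, (∀ j < i, m j = m' j) →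
    rr m ε i = rr m' ε i := by
  intro i
  induction i with
  | zero => exact fun _ => rfl
  | succ i ih =>
    intro h
    have h1 := ih fun j hj => h j (hj.trans (Nat.lt_succ_self i))
    have h2 := h i (Nat.lt_succ_self i)
    by_cases hb : sl m ε i
    · have hb' : sl m' ε i := by
        unfold sl at hb ⊢
        rw [← h1, ← h2]
        exact hb
      rw [rr_pos hb, rr_pos hb', h2]
    · have hb' : ¬ sl m' ε i := by
        unfold sl at hb ⊢
        rw [← h1, ← h2]
        exact hb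
      rw [rr_neg hb, rr_neg hb', h1]

lemma sl_congr {m m' : ℕ → ℕ} {ε : ℝ} {i : ℕ} (h : ∀ j ≤ i, m j = m' j) :
    sl m ε i ↔ sl m' ε i := by
  unfold sl
  rw [h i le_rfl, rr_congr fun j hj => h j hj.le]

/-- Every interval with a large mass is attached to a selected one. -/
lemma cover {m : ℕ → ℕ} {ε : ℝ} (hε : 0 < ε) (hε1 : ε ≤ 1) {i l : ℕ} (h0 : 0 < l)
    (h1 : l ≤ m i) : ∃ j ≤ i, sl m ε j ∧ i < j + ⌈2 / ε * m j⌉₊ ∧ l ≤ ⌈2 / ε * m j⌉₊ := by
  have h2 : ∀ j, 0 < m j → m j ≤ ⌈2 / ε * m j⌉₊ := by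
    intro j hj
    have hj' : (0 : ℝ) < m j := by exact_mod_cast hj
    have h3 : (m j : ℝ) ≤ 2 / ε * m j := by
      have : (1 : ℝ) ≤ 2 / ε := by
        rw [le_div_iff₀ hε]
        linarith
      nlinarith
    have h4 := h3.trans (Nat.le_ceil _)
    exact_mod_cast h4
  by_cases h : sl m ε i
  · exact ⟨i, le_rfl, h, by
      have := h2 i h.1
      have := h.1
      omega, h1.trans (h2 i h.1)⟩
  · have h3 : ε / 2 * m i < (rr m ε i : ℝ) - i := by
      by_contra hc
      exact h ⟨by omega, not_lt.1 hc⟩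
    have hl : (0 : ℝ) < l := by exact_mod_cast h0
    have h4 : (l : ℝ) ≤ m i := by exact_mod_cast h1
    have h5 : (i : ℝ) < rr m ε i := by nlinarith
    have h5' : i < rr m ε i := by exact_mod_cast h5
    rcases rr_cases m ε i with h6 | ⟨j, hj, h6, h7⟩
    · omega
    · refine ⟨j, hj.le, h6, ?_, ?_⟩
      · have := h2 j h6.1
        omega
      · have h8 : (l : ℝ) ≤ 2 / ε * m j := by
          rw [div_mul_eq_mul_div, le_div_iff₀ hε]
          rw [h7] at h3
          push_cast at h3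
          have : (j : ℝ) ≤ i := by exact_mod_cast hj.le
          nlinarith
        have h9 := h8.trans (Nat.le_ceil _)
        exact_mod_cast h9

end WDM

open WDC WDM in
open Classical in
/-- **Row WDM.** -/
theorem wdm_thm : WDMStmt := by
  intro Ω σ ι _ p V τ R s l N M ε hp hM hε hε1 hV hτ hR
  set d : Ω → ℕ → ℕ → ℝ := fun ω i k => Ex (Pool.Agent.H49.Ent.cond p (V i) (V i ω))
    (fun v => ∑ j ∈ Ico i (i + k), τ j v) with hd
  set m : Ω → ℕ → ℕ := fun ω i => mx (d ω) ε N i with hm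
  have hmi : ∀ i j ω ω', i ≤ j → 0 < p ω → 0 < p ω' → V j ω = V j ω' → m ω i = m ω' i := by
    intro i j ω ω' hij a a' he
    have h1 := adp_of_det hV hij a a' he
    refine mx_congr fun k => ?_
    simp only [hd]
    rw [h1]
  -- the new part of a selected interval
  set nw : Ω → ℕ → Finset ℕ := fun ω i => Ico (max (rr (m ω) ε i) i) (i + m ω i) with hnw
  have key : ∀ i ω, 0 < p ω → sl (m ω) ε i → ε / 2 * m ω i ≤
      Ex (Pool.Agent.H49.Ent.cond p (V i) (V i ω)) (fun v => ∑ j ∈ nw ω i, τ j v) := by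
    intro i ω hω hs
    have h1 := (mx_spec hs.1).2
    have hq := cond_nonneg hp.nonneg (V i) (V i ω)
    have hq1 := sum_cond p (V i) (law_pos hp.nonneg (V i) hω).ne'
    have hle : max (rr (m ω) ε i) i ≤ i + m ω i := max_le (rr_le hε1 hs) (by omega)
    have h2 : (fun v => ∑ j ∈ Ico i (i + m ω i), τ j v) = fun v =>
        ∑ j ∈ Ico i (max (rr (m ω) ε i) i), τ j v + ∑ j ∈ nw ω i, τ j v := by
      funext v
      rw [hnw]
      exact (Finset.sum_Ico_consecutive _ (le_max_right _ _) hle).symm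
    have h3 : d ω i (m ω i) = Ex (Pool.Agent.H49.Ent.cond p (V i) (V i ω))
        (fun v => ∑ j ∈ Ico i (max (rr (m ω) ε i) i), τ j v) +
        Ex (Pool.Agent.H49.Ent.cond p (V i) (V i ω)) (fun v => ∑ j ∈ nw ω i, τ j v) := by
      simp only [hd]
      rw [h2]
      unfold Ex
      rw [← Finset.sum_add_distrib]
      exact Finset.sum_congr rfl fun v _ => mul_add _ _ _
    have h4 : Ex (Pool.Agent.H49.Ent.cond p (V i) (V i ω))
        (fun v => ∑ j ∈ Ico i (max (rr (m ω) ε i) i), τ j v) ≤ ε / 2 * m ω i := by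
      have h5 : ((Ico i (max (rr (m ω) ε i) i)).card : ℝ) ≤ ε / 2 * m ω i := by
        rw [Nat.card_Ico, Nat.cast_sub (le_max_right _ _)]
        rcases le_total (rr (m ω) ε i) i with h6 | h6
        · rw [max_eq_right h6, sub_self]
          positivity
        · rw [max_eq_left h6]
          exact hs.2
      refine le_trans ?_ h5
      have h6 : Ex (Pool.Agent.H49.Ent.cond p (V i) (V i ω))
          (fun _ => ((Ico i (max (rr (m ω) ε i) i)).card : ℝ)) =
          ((Ico i (max (rr (m ω) ε i) i)).card : ℝ) := by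
        unfold Ex
        rw [← Finset.sum_mul, hq1, one_mul]
      rw [← h6]
      refine Ex_mono hq fun v hv => ?_
      have hv' := ((cond_pos_iff hp.nonneg _ _ v).1 hv).1
      refine (Finset.sum_le_sum fun j _ => (hτ j v hv').2).trans (le_of_eq ?_)
      rw [Finset.sum_const, nsmul_eq_mul, mul_one]
    have h7 : ε * m ω i ≤ d ω i (m ω i) := h1
    rw [h3] at h7
    linarith
  -- the selected intervals have small total length
  have hsel : Ex p (fun ω => ∑ i ∈ range N, if sl (m ω) ε i then (m ω i : ℝ) else 0) ≤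
      2 / ε * Ex p (fun ω => ∑ j ∈ range N, τ j ω) := by
    have b1 : ∀ i, Ex p (fun ω => if sl (m ω) ε i then (m ω i : ℝ) else 0) ≤
        2 / ε * Ex p (fun ω => if sl (m ω) ε i then ∑ j ∈ nw ω i, τ j ω else 0) := by
      intro i
      have c1 : Ex p (fun ω => if sl (m ω) ε i then ∑ j ∈ nw ω i, τ j ω else 0) =
          Ex p (fun ω => Ex (Pool.Agent.H49.Ent.cond p (V i) (V i ω))
            (fun v => if sl (m ω) ε i then ∑ j ∈ nw ω i, τ j v else 0)) := by
        refine tower2 hp.nonneg (V i)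
          (fun ω v => if sl (m ω) ε i then ∑ j ∈ nw ω i, τ j v else 0) ?_
        intro ω ω' a a' he
        have c2 : ∀ j ≤ i, m ω j = m ω' j := fun j hj => hmi j i ω ω' hj a a' he
        have c3 : nw ω i = nw ω' i := by
          simp only [hnw]
          rw [c2 i le_rfl, rr_congr fun j hj => c2 j hj.le]
        funext v
        simp only [sl_congr c2, c3]
      rw [c1, ← Ex_smul]
      refine Ex_mono hp.nonneg fun ω hω => ?_
      by_cases hs : sl (m ω) ε i
      · simp only [if_pos hs]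
        have := key i ω hω hs
        rw [div_mul_eq_mul_div, le_div_iff₀ hε]
        linarith
      · simp only [if_neg hs]
        unfold Ex
        simp
    rw [Ex_sum]
    refine (Finset.sum_le_sum fun i _ => b1 i).trans ?_
    rw [← Finset.mul_sum, ← Ex_sum]
    refine mul_le_mul_of_nonneg_left ?_ (by positivity)
    refine Ex_mono hp.nonneg fun ω hω => ?_
    rw [← Finset.sum_filter]
    have hdis : ∀ i ∈ (range N).filter (fun i => sl (m ω) ε i),
        ∀ i' ∈ (range N).filter (fun i => sl (m ω) ε i), i ≠ i' →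
        Disjoint (nw ω i) (nw ω i') := by
      have hlt : ∀ i i', i < i' → sl (m ω) ε i → Disjoint (nw ω i) (nw ω i') := by
        intro i i' hii hs
        rw [Finset.disjoint_left]
        intro x hx hx'
        simp only [hnw, mem_Ico] at hx hx'
        have e1 := rr_mono (m := m ω) hε1 (show i + 1 ≤ i' from hii)
        rw [rr_pos hs] at e1
        have e2 := le_max_left (rr (m ω) ε i') i'
        omega
      intro i hi i' hi' hne
      rcases Nat.lt_or_gt_of_ne hne with h | h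
      · exact hlt i i' h (mem_filter.1 hi).2
      · exact (hlt i' i h (mem_filter.1 hi').2).symm
    rw [← Finset.sum_biUnion hdis]
    refine Finset.sum_le_sum_of_subset_of_nonneg ?_ fun j _ _ => (hτ j ω hω).1
    intro x hx
    rw [mem_biUnion] at hx
    obtain ⟨i, hi, hx⟩ := hx
    have hs := (mem_filter.1 hi).2
    have e1 := (mx_spec hs.1).1
    have e2 : i + m ω i ≤ N := e1
    simp only [hnw, mem_Ico] at hx
    rw [mem_range]
    omega
  -- the bad rows
  have hbad : ∀ ω, 0 < p ω → ((R.filter fun r => 0 < l ω r ∧ s ω r + l ω r ≤ N ∧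
      ε * l ω r ≤ Ex (Pool.Agent.H49.Ent.cond p (V (s ω r)) (V (s ω r) ω))
        (fun v => ∑ j ∈ Ico (s ω r) (s ω r + l ω r), τ j v)).card : ℝ) ≤
      ∑ i ∈ range N, 3 * M / ε * (if sl (m ω) ε i then (m ω i : ℝ) else 0) := by
    intro ω hω
    have h3 : (R.filter fun r => 0 < l ω r ∧ s ω r + l ω r ≤ N ∧
        ε * l ω r ≤ Ex (Pool.Agent.H49.Ent.cond p (V (s ω r)) (V (s ω r) ω))
          (fun v => ∑ j ∈ Ico (s ω r) (s ω r + l ω r), τ j v)) ⊆
        ((range N).filter fun i => sl (m ω) ε i).biUnion fun i => R.filter fun r =>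
          i ≤ s ω r ∧ s ω r < i + ⌈2 / ε * m ω i⌉₊ ∧ l ω r ≤ ⌈2 / ε * m ω i⌉₊ := by
      intro r hr
      rw [mem_filter] at hr
      obtain ⟨hr1, hr2, hr3, hr4⟩ := hr
      have e1 : l ω r ≤ m ω (s ω r) := le_mx hr2 hr3 hr4
      obtain ⟨j, hj1, hj2, hj3, hj4⟩ := cover (m := m ω) hε hε1 hr2 e1
      rw [mem_biUnion]
      refine ⟨j, ?_, ?_⟩
      · rw [mem_filter, mem_range]
        exact ⟨by omega, hj2⟩
      · rw [mem_filter]
        exact ⟨hr1, hj1, hj3, hj4⟩
    have h4 := (Finset.card_le_card h3).trans Finset.card_biUnion_le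
    have h5 : ((R.filter fun r => 0 < l ω r ∧ s ω r + l ω r ≤ N ∧
        ε * l ω r ≤ Ex (Pool.Agent.H49.Ent.cond p (V (s ω r)) (V (s ω r) ω))
          (fun v => ∑ j ∈ Ico (s ω r) (s ω r + l ω r), τ j v)).card : ℝ) ≤
        ∑ i ∈ (range N).filter (fun i => sl (m ω) ε i), ((R.filter fun r =>
          i ≤ s ω r ∧ s ω r < i + ⌈2 / ε * m ω i⌉₊ ∧ l ω r ≤ ⌈2 / ε * m ω i⌉₊).card : ℝ) := by
      exact_mod_cast h4
    refine h5.trans ?_
    rw [Finset.sum_filter]
    refine Finset.sum_le_sum fun i _ => ?_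
    by_cases hs : sl (m ω) ε i
    · rw [if_pos hs, if_pos hs]
      refine (hR ω hω i _).trans ?_
      have hm1 : (1 : ℝ) ≤ m ω i := by exact_mod_cast hs.1
      have h6 : (⌈2 / ε * (m ω i : ℝ)⌉₊ : ℝ) ≤ 3 / ε * m ω i := by
        have h7 := (Nat.ceil_lt_add_one (show (0 : ℝ) ≤ 2 / ε * m ω i by positivity)).le
        have h8 : (1 : ℝ) ≤ 1 / ε * m ω i := by
          have : (1 : ℝ) ≤ 1 / ε := by
            rw [le_div_iff₀ hε]
            linarith
          nlinarith
        have h9 : 3 / ε * (m ω i : ℝ) = 2 / ε * m ω i + 1 / ε * m ω i := by ring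
        linarith
      refine (mul_le_mul_of_nonneg_left h6 hM).trans (le_of_eq ?_)
      ring
    · rw [if_neg hs, if_neg hs, mul_zero]
  have h10 : Ex p (fun ω => ((R.filter fun r => 0 < l ω r ∧ s ω r + l ω r ≤ N ∧
      ε * l ω r ≤ Ex (Pool.Agent.H49.Ent.cond p (V (s ω r)) (V (s ω r) ω))
        (fun v => ∑ j ∈ Ico (s ω r) (s ω r + l ω r), τ j v)).card : ℝ)) ≤
      3 * M / ε * Ex p (fun ω => ∑ i ∈ range N, if sl (m ω) ε i then (m ω i : ℝ) else 0) := by
    rw [← Ex_smul]
    refine Ex_mono hp.nonneg fun ω hω => ?_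
    rw [Finset.mul_sum]
    exact hbad ω hω
  refine h10.trans ((mul_le_mul_of_nonneg_left hsel (by positivity)).trans (le_of_eq ?_))
  field_simp
  ring

end Pool.KX
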